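import Pool.Agent.Work.MP_122e00_nt.Core.Stmts
import Pool.Agent.Work.MP_122e00_nt.Bd.B44

set_option autoImplicit false

/-!
# Block CO, item C4: the chain integrals of the thin weight tend to `0`
-/

namespace Pool.Agent.Work.MP_122e00_nt.Core

open Finset Filter Topology MeasureTheory

open Two Gen

namespace IC4

theorem tent_nonneg (θ t : ℝ) : 0 ≤ tent θ t := le_max_left _ _

theorem tent_le {θ : ℝ} (hθ : 0 < θ) (t : ℝ) : tent θ t ≤ 2 := by
  unfold tent
  refine max_le (by norm_num) ?_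
  have h : 0 ≤ |t - 1 / 2| / θ := by positivity
  linarith

theorem tent_mono {θ θ' : ℝ} (hθ : 0 < θ) (h : θ ≤ θ') (t : ℝ) : tent θ t ≤ tent θ' t := by
  unfold tent
  refine max_le_max le_rfl ?_
  have h1 : |t - 1 / 2| / θ' ≤ |t - 1 / 2| / θ := div_le_div_of_nonneg_left (abs_nonneg _) hθ h
  linarith

theorem tent_cont (θ : ℝ) : Continuous (tent θ) := by
  unfold tent
  exact continuous_const.max (continuous_const.sub
    (((continuous_id.sub continuous_const).abs).div_const θ))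

theorem tent_lim {t : ℝ} (ht : t ≠ 1 / 2) :
    Tendsto (fun n : ℕ => tent (1 / ((n : ℝ) + 1)) t) atTop (𝓝 0) := by
  have hd : 0 < |t - 1 / 2| := abs_pos.2 (sub_ne_zero.2 ht)
  refine tendsto_const_nhds.congr' ?_
  obtain ⟨N, hN⟩ := exists_nat_gt (2 / |t - 1 / 2|)
  filter_upwards [eventually_ge_atTop N] with n hn
  symm
  unfold tent
  refine max_eq_left ?_
  rw [div_div_eq_mul_div, div_one]
  rw [div_lt_iff₀ hd] at hN
  have h1 : (N : ℝ) ≤ n := by exact_mod_cast hn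
  nlinarith

theorem tw_nonneg (s : ℕ) (θ : ℝ) (v : Fin (s + 1) → ℝ) : 0 ≤ tw s θ v :=
  Finset.sum_nonneg fun _ _ => tent_nonneg _ _

theorem tw_le {s : ℕ} {θ : ℝ} (hθ : 0 < θ) (v : Fin (s + 1) → ℝ) :
    tw s θ v ≤ 2 * ((s : ℝ) + 1) := by
  unfold tw
  calc ∑ i, tent θ (v i) ≤ ∑ _i : Fin (s + 1), (2 : ℝ) :=
        Finset.sum_le_sum fun i _ => tent_le hθ _
    _ = 2 * ((s : ℝ) + 1) := by
        rw [Finset.sum_const, Finset.card_univ, Fintype.card_fin, nsmul_eq_mul]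
        push_cast
        ring

theorem tw_mono {s : ℕ} {θ θ' : ℝ} (hθ : 0 < θ) (h : θ ≤ θ') (v : Fin (s + 1) → ℝ) :
    tw s θ v ≤ tw s θ' v :=
  Finset.sum_le_sum fun _ _ => tent_mono hθ h _

theorem tw_cont (s : ℕ) (θ : ℝ) : Continuous (tw s θ) :=
  continuous_finsetSum _ fun i _ => (tent_cont θ).comp (continuous_apply i)

theorem tw_lim {s : ℕ} {v : Fin (s + 1) → ℝ} (hv : ∀ i, v i ≠ 1 / 2) :
    Tendsto (fun n : ℕ => tw s (1 / ((n : ℝ) + 1)) v) atTop (𝓝 0) := by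
  have h := tendsto_finsetSum (Finset.univ : Finset (Fin (s + 1))) fun i _ => tent_lim (hv i)
  rw [Finset.sum_const_zero] at h
  exact h

section pl

variable {s k : ℕ} {g g' : (Fin (s + 1) → ℝ) → ℝ}

theorem Pl_nonneg (hg : ∀ v, 0 ≤ g v) (x : Fin k → ℝ) (v : Fin (s + 1) → ℝ) : 0 ≤ Pl g x v :=
  Finset.sum_nonneg fun _ _ => hg _

theorem Pl_mono (h : ∀ v, g v ≤ g' v) (x : Fin k → ℝ) (v : Fin (s + 1) → ℝ) :
    Pl g x v ≤ Pl g' x v :=
  Finset.sum_le_sum fun _ _ => h _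

theorem Pl_const (b : ℝ) (x : Fin k → ℝ) (v : Fin (s + 1) → ℝ) :
    Pl (fun _ => b) x v = b * ((s : ℝ) + 1) ^ k := by
  unfold Pl
  rw [Finset.sum_const, Finset.card_univ, Fintype.card_fun, Fintype.card_fin, Fintype.card_fin,
    nsmul_eq_mul]
  push_cast
  ring

theorem FG_nonneg (c : ℝ) (g : (Fin (s + 1) → ℝ) → ℝ) (x : Fin k → ℝ) (v : Fin (s + 1) → ℝ) :
    0 ≤ FG s c g k x v := by
  rcases k with _ | k
  · exact le_rfl
  · simp only [FG]
    split_ifs
    · positivity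
    · exact le_rfl

theorem FG_mono (c : ℝ) (hg : ∀ v, 0 ≤ g v) (h : ∀ v, g v ≤ g' v) (x : Fin k → ℝ)
    (v : Fin (s + 1) → ℝ) : FG s c g k x v ≤ FG s c g' k x v := by
  rcases k with _ | k
  · exact le_rfl
  · simp only [FG]
    split_ifs
    · exact pow_le_pow_left₀ (Pl_nonneg hg x v) (Pl_mono h x v) 2
    · exact le_rfl

theorem FG_const (c b : ℝ) (x : Fin k → ℝ) (v : Fin (s + 1) → ℝ) :
    FG s c (fun _ => b) k x v = b ^ 2 * FB s c k x v := by
  rcases k with _ | k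
  · simp only [FG, FB, mul_zero]
  · simp only [FG, FB]
    split_ifs
    · rw [Pl_const, mul_pow, ← pow_mul, mul_comm 2 (k + 1)]
    · rw [mul_zero]

theorem FG_le (c : ℝ) {B : ℝ} (hg : ∀ v, 0 ≤ g v) (h : ∀ v, g v ≤ B)
    (x : Fin k → ℝ) (v : Fin (s + 1) → ℝ) :
    FG s c g k x v ≤ (B * ((s : ℝ) + 1) ^ k) ^ 2 := by
  rcases k with _ | k
  · simp only [FG]
    positivity
  · simp only [FG]
    split_ifs
    · rw [← Pl_const B x v]
      exact pow_le_pow_left₀ (Pl_nonneg hg x v) (Pl_mono h x v) 2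
    · positivity

end pl

theorem meas {s k : ℕ} (c : ℝ) {g : (Fin (s + 1) → ℝ) → ℝ} (hg : Continuous g) :
    Measurable (fun y : Fin k ⊕ Fin s → ℝ => Two.ext (FG s c g k) (y, 1 - ∑ i, y i)) := by
  rcases k with _ | k
  · exact (measurable_const : Measurable fun _ : Fin 0 ⊕ Fin s → ℝ => (0 : ℝ))
  · have hS : MeasurableSet {y : Fin (k + 1) ⊕ Fin s → ℝ | stp c (fun i => y (Sum.inl i))} := by
      have h1 : MeasurableSet {y : Fin (k + 1) ⊕ Fin s → ℝ | c ≤ ∑ j, y (Sum.inl j)} :=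
        measurableSet_le measurable_const
          (Finset.measurable_sum _ fun i _ => measurable_pi_apply _)
      have h2 : MeasurableSet {y : Fin (k + 1) ⊕ Fin s → ℝ |
          ∑ j : Fin k, y (Sum.inl j.castSucc) < c} :=
        measurableSet_lt (Finset.measurable_sum _ fun i _ => measurable_pi_apply _)
          measurable_const
      exact h1.inter h2
    have hP : Continuous (fun y : Fin (k + 1) ⊕ Fin s → ℝ =>
        (Pl g (fun i => y (Sum.inl i))
          (Fin.snoc (fun i => y (Sum.inr i)) (1 - ∑ i, y i) : Fin (s + 1) → ℝ)) ^ 2) := by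
      refine Continuous.pow ?_ 2
      unfold Pl
      refine continuous_finsetSum _ fun c' _ => hg.comp ?_
      refine continuous_pi fun q => ?_
      refine Continuous.add ?_ (continuous_finsetSum _ fun j _ => ?_)
      · refine Fin.lastCases ?_ (fun q' => ?_) q
        · simp only [Fin.snoc_last]
          exact continuous_const.sub (continuous_finsetSum _ fun i _ => continuous_apply i)
        · simp only [Fin.snoc_castSucc]
          exact continuous_apply _
      · split_ifs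
        · exact continuous_apply _
        · exact continuous_const
    classical
    have e : (fun y : Fin (k + 1) ⊕ Fin s → ℝ =>
        Two.ext (FG s c g (k + 1)) (y, 1 - ∑ i, y i)) =
        fun y => ({y : Fin (k + 1) ⊕ Fin s → ℝ | stp c (fun i => y (Sum.inl i))}).indicator
          (fun y => (Pl g (fun i => y (Sum.inl i))
            (Fin.snoc (fun i => y (Sum.inr i)) (1 - ∑ i, y i) : Fin (s + 1) → ℝ)) ^ 2) y := by
      funext y
      show FG s c g (k + 1) (fun i => y (Sum.inl i))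
        (Fin.snoc (fun i => y (Sum.inr i)) (1 - ∑ i, y i)) = _
      simp only [FG, Set.indicator_apply, Set.mem_ofPred_eq]
    rw [e]
    exact hP.measurable.indicator hS

theorem den_nonneg {k s : ℕ} {y : Fin k ⊕ Fin s → ℝ} (hy : y ∈ Sim k s) : 0 ≤ den y := by
  rw [Gen.IB8.den_eq]
  exact Gen.IB8.D_nonneg (Gen.IB8.proj_mem hy)

theorem ext_nonneg {s k : ℕ} (c : ℝ) (g : (Fin (s + 1) → ℝ) → ℝ)
    (p : (Fin k ⊕ Fin s → ℝ) × ℝ) : 0 ≤ Two.ext (FG s c g k) p := FG_nonneg c g _ _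

theorem int_FG (h8 : Two.claimT8) (s k : ℕ) (c B : ℝ)
    (g : (Fin (s + 1) → ℝ) → ℝ) (hg : Continuous g) (h0 : ∀ v, 0 ≤ g v) (h1 : ∀ v, g v ≤ B) :
    IntegrableOn (fun y : Fin k ⊕ Fin s → ℝ =>
      Two.ext (FG s c g k) (y, 1 - ∑ i, y i) * den y) (Sim k s) := by
  refine ((h8 k s).1.const_mul ((B * ((s : ℝ) + 1) ^ k) ^ 2)).mono' ?_ ?_
  · exact ((meas c hg).mul (Two.IT8.den_meas k s)).aestronglyMeasurable
  · filter_upwards [ae_restrict_mem (Two.IT8.Sim_meas k s)] with y hy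
    have hd := den_nonneg hy
    rw [Real.norm_of_nonneg (mul_nonneg (ext_nonneg c g _) hd)]
    exact mul_le_mul_of_nonneg_right (FG_le c h0 h1 _ _) hd

theorem int_nonneg (s k : ℕ) (c : ℝ) (g : (Fin (s + 1) → ℝ) → ℝ) :
    0 ≤ ∫ y in Sim k s, Two.ext (FG s c g k) (y, 1 - ∑ i, y i) * den y := by
  refine integral_nonneg_of_ae ?_
  filter_upwards [ae_restrict_mem (Two.IT8.Sim_meas k s)] with y hy
  exact mul_nonneg (FG_nonneg c g _ _) (den_nonneg hy)

theorem int_mono (h8 : Two.claimT8) (s k : ℕ) (c B : ℝ)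
    (g g' : (Fin (s + 1) → ℝ) → ℝ) (hg : Continuous g) (hg' : Continuous g')
    (h0 : ∀ v, 0 ≤ g v) (h1 : ∀ v, g v ≤ g' v) (h2 : ∀ v, g' v ≤ B) :
    ∫ y in Sim k s, Two.ext (FG s c g k) (y, 1 - ∑ i, y i) * den y ≤
      ∫ y in Sim k s, Two.ext (FG s c g' k) (y, 1 - ∑ i, y i) * den y := by
  refine integral_mono_ae (int_FG h8 s k c B g hg h0 fun v => (h1 v).trans (h2 v))
    (int_FG h8 s k c B g' hg' (fun v => (h0 v).trans (h1 v)) h2) ?_
  filter_upwards [ae_restrict_mem (Two.IT8.Sim_meas k s)] with y hy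
  exact mul_le_mul_of_nonneg_right (FG_mono c h0 h1 _ _) (den_nonneg hy)

theorem ae_aff (h6 : Two.claimL6) {ι : Type} [Fintype ι] (a : ι → ℝ) (ha : a ≠ 0) (b r : ℝ)
    (f : (ι → ℝ) → ℝ) (hf : ∀ y, f y = ∑ i, a i * y i + b) : ∀ᵐ y : ι → ℝ, f y ≠ r := by
  rw [ae_iff]
  have e : {y : ι → ℝ | ¬ f y ≠ r} = {y | ∑ i, a i * y i = r - b} := by
    ext y
    simp only [Set.mem_ofPred_eq, not_not, hf y]
    constructor <;> intro h <;> linarith
  rw [e]
  exact h6 ι a _ ha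

theorem ae_half (h6 : Two.claimL6) {s k : ℕ} (hs : 1 ≤ s) : ∀ᵐ y : Fin k ⊕ Fin s → ℝ,
    ∀ (c' : Fin k → Fin (s + 1)) (q : Fin (s + 1)),
      (Fin.snoc (fun i => y (Sum.inr i)) (1 - ∑ i, y i) : Fin (s + 1) → ℝ) q +
        ∑ j, (if c' j = q then y (Sum.inl j) else 0) ≠ 1 / 2 := by
  rw [ae_all_iff]
  intro c'
  rw [ae_all_iff]
  intro q
  refine Fin.lastCases ?_ (fun q' => ?_) q
  · refine ae_aff h6 (Sum.elim (fun j => -1 + if c' j = Fin.last s then 1 else 0) fun _ => -1)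
      ?_ 1 (1 / 2) _ ?_
    · intro h
      have h1 := congrFun h (Sum.inr ⟨0, hs⟩)
      simp only [Sum.elim_inr, Pi.zero_apply] at h1
      norm_num at h1
    · intro y
      rw [Fin.snoc_last, Fintype.sum_sum_type, Fintype.sum_sum_type]
      simp only [Sum.elim_inl, Sum.elim_inr, add_mul, Finset.sum_add_distrib, ite_mul, one_mul,
        zero_mul, neg_mul, Finset.sum_neg_distrib]
      ring
  · refine ae_aff h6 (Sum.elim (fun j => if c' j = q'.castSucc then 1 else 0)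
      fun i => if i = q' then 1 else 0) ?_ 0 (1 / 2) _ ?_
    · intro h
      have h1 := congrFun h (Sum.inr q')
      simp at h1
    · intro y
      rw [Fin.snoc_castSucc, Fintype.sum_sum_type]
      simp only [Sum.elim_inl, Sum.elim_inr, ite_mul, one_mul, zero_mul,
        Finset.sum_ite_eq', Finset.mem_univ, if_true]
      ring

theorem lim (h8 : Two.claimT8) (h6 : Two.claimL6) (s k : ℕ) (hs : 1 ≤ s) (c : ℝ) :
    Tendsto (fun n : ℕ => ∫ y in Sim k s,
      Two.ext (FG s c (tw s (1 / ((n : ℝ) + 1))) k) (y, 1 - ∑ i, y i) * den y) atTop (𝓝 0) := by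
  have hB : (0 : ℝ) ≤ 2 * ((s : ℝ) + 1) := by positivity
  have hn : ∀ n : ℕ, (0 : ℝ) < 1 / ((n : ℝ) + 1) := fun n => by positivity
  have h := tendsto_integral_of_dominated_convergence (μ := volume.restrict (Sim k s))
    (F := fun (n : ℕ) y => Two.ext (FG s c (tw s (1 / ((n : ℝ) + 1))) k) (y, 1 - ∑ i, y i) *
      den y) (f := fun _ => 0)
    (fun y => Two.ext (FG s c (fun _ => 2 * ((s : ℝ) + 1)) k) (y, 1 - ∑ i, y i) * den y)
    (fun n => ((meas c (tw_cont s _)).mul (Two.IT8.den_meas k s)).aestronglyMeasurable)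
    (int_FG h8 s k c _ _ continuous_const (fun _ => hB) fun _ => le_rfl) ?_ ?_
  · rw [integral_zero] at h
    exact h
  · intro n
    filter_upwards [ae_restrict_mem (Two.IT8.Sim_meas k s)] with y hy
    have hd := den_nonneg hy
    rw [Real.norm_of_nonneg (mul_nonneg (ext_nonneg c _ _) hd)]
    exact mul_le_mul_of_nonneg_right (FG_mono c (tw_nonneg s _) (tw_le (hn n)) _ _) hd
  · filter_upwards [ae_restrict_of_ae (ae_half h6 (s := s) (k := k) hs)] with y hy
    have hF : Tendsto (fun n : ℕ => Two.ext (FG s c (tw s (1 / ((n : ℝ) + 1))) k)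
        (y, 1 - ∑ i, y i)) atTop (𝓝 0) := by
      rcases k with _ | k
      · exact tendsto_const_nhds
      · have hP : Tendsto (fun n : ℕ => (Pl (tw s (1 / ((n : ℝ) + 1))) (fun i => y (Sum.inl i))
            (Fin.snoc (fun i => y (Sum.inr i)) (1 - ∑ i, y i) : Fin (s + 1) → ℝ)) ^ 2)
            atTop (𝓝 0) := by
          have h1 : Tendsto (fun n : ℕ => Pl (tw s (1 / ((n : ℝ) + 1)))
              (fun i => y (Sum.inl i))
              (Fin.snoc (fun i => y (Sum.inr i)) (1 - ∑ i, y i) : Fin (s + 1) → ℝ))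
              atTop (𝓝 0) := by
            have h2 := tendsto_finsetSum
              (Finset.univ : Finset (Fin (k + 1) → Fin (s + 1))) fun c' _ => tw_lim (hy c')
            rw [Finset.sum_const_zero] at h2
            exact h2
          have h3 := h1.pow 2
          rwa [zero_pow two_ne_zero] at h3
        show Tendsto (fun n : ℕ => FG s c (tw s (1 / ((n : ℝ) + 1))) (k + 1)
          (fun i => y (Sum.inl i)) (Fin.snoc (fun i => y (Sum.inr i)) (1 - ∑ i, y i)))
          atTop (𝓝 0)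
        by_cases hst : stp c (fun i => y (Sum.inl i))
        · simp only [FG, if_pos hst]
          exact hP
        · simp only [FG, if_neg hst]
          exact tendsto_const_nhds
    have h4 := hF.mul_const (den y)
    rwa [zero_mul] at h4

end IC4

open IC4 in
theorem prC4 (h9 : claimB9) (h8 : Two.claimT8) (h6 : Two.claimL6) : claimC4 := by
  intro s c ε hs hc0 hc1 hε
  obtain ⟨B, hBdef⟩ : ∃ B : ℝ, B = 2 * ((s : ℝ) + 1) := ⟨_, rfl⟩
  have hB : 0 < B := by rw [hBdef]; positivity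
  obtain ⟨J, hJ⟩ : ∃ J : ℕ → ℝ, ∀ k, J k = ∫ y in Sim k s,
    Two.ext (FB s c k) (y, 1 - ∑ i, y i) * den y := ⟨_, fun _ => rfl⟩
  obtain ⟨I, hI⟩ : ∃ I : ℝ → ℕ → ℝ, ∀ θ k, I θ k = ∫ y in Sim k s,
    Two.ext (FG s c (tw s θ) k) (y, 1 - ∑ i, y i) * den y := ⟨_, fun _ _ => rfl⟩
  have hconst : ∀ (b : ℝ) (k : ℕ), ∫ y in Sim k s,
      Two.ext (FG s c (fun _ => b) k) (y, 1 - ∑ i, y i) * den y = b ^ 2 * J k := by
    intro b k
    rw [hJ, ← integral_const_mul]
    refine integral_congr_ae (Eventually.of_forall fun y => ?_)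
    show FG s c (fun _ => b) k (fun i => y (Sum.inl i))
        (Fin.snoc (fun i => y (Sum.inr i)) (1 - ∑ i, y i)) * den y =
      b ^ 2 * (FB s c k (fun i => y (Sum.inl i))
        (Fin.snoc (fun i => y (Sum.inr i)) (1 - ∑ i, y i)) * den y)
    rw [FG_const]
    ring
  have hJ0 : ∀ k, 0 ≤ J k := by
    intro k
    have h1 := int_nonneg s k c (fun _ => (1 : ℝ))
    rw [hconst, one_pow, one_mul] at h1
    exact h1
  have hI0 : ∀ θ k, 0 ≤ I θ k := by
    intro θ k
    rw [hI]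
    exact int_nonneg s k c _
  have hIJ : ∀ θ, 0 < θ → ∀ k, I θ k ≤ B ^ 2 * J k := by
    intro θ hθ k
    rw [hI, ← hconst B k]
    exact int_mono h8 s k c B _ _ (tw_cont s θ) continuous_const (tw_nonneg s θ)
      (fun v => by rw [hBdef]; exact tw_le hθ v) fun _ => le_rfl
  have hImono : ∀ θ θ', 0 < θ → θ ≤ θ' → ∀ k, I θ k ≤ I θ' k := by
    intro θ θ' hθ hle k
    rw [hI, hI]
    exact int_mono h8 s k c B _ _ (tw_cont s θ) (tw_cont s θ') (tw_nonneg s θ)
      (tw_mono hθ hle) fun v => by rw [hBdef]; exact tw_le (hθ.trans_le hle) v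
  have hJs : Summable J := by
    refine summable_of_sum_range_le hJ0 (c := ((s : ℝ) + 1) ^ 2 * (1 - c) ^ (s + 1) /
        (((s + 1).factorial : ℝ) * (1 - c) ^ ((s + 1) ^ 2))) fun n => ?_
    have h1 := h9 s c hs hc0 hc1 n
    simp only [← hJ] at h1
    refine le_trans ?_ h1
    exact Finset.sum_le_sum_of_subset_of_nonneg
      (Finset.range_mono (Nat.le_succ n)) fun k _ _ => hJ0 k
  obtain ⟨K₀, hK₀⟩ : ∃ K₀ : ℕ, B ^ 2 * ∑' k, J (k + K₀) ≤ ε / 2 := by
    have h1 : Tendsto (fun i => ∑' k, J (k + i)) atTop (𝓝 0) := tendsto_sum_nat_add J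
    have h2 := h1.const_mul (B ^ 2)
    rw [mul_zero] at h2
    have h3 : ∀ᶠ i in atTop, B ^ 2 * ∑' k, J (k + i) < ε / 2 :=
      h2.eventually_lt_const (by positivity)
    obtain ⟨K₀, h4⟩ := h3.exists
    exact ⟨K₀, h4.le⟩
  obtain ⟨n, hn⟩ : ∃ n : ℕ, ∑ k ∈ Finset.range K₀, I (1 / ((n : ℝ) + 1)) k ≤ ε / 2 := by
    have h1 : Tendsto (fun n : ℕ => ∑ k ∈ Finset.range K₀, I (1 / ((n : ℝ) + 1)) k) atTop
        (𝓝 (∑ k ∈ Finset.range K₀, (0 : ℝ))) := by
      refine tendsto_finsetSum _ fun k _ => ?_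
      simp only [hI]
      exact lim h8 h6 s k hs c
    rw [Finset.sum_const_zero] at h1
    have h3 : ∀ᶠ n : ℕ in atTop, ∑ k ∈ Finset.range K₀, I (1 / ((n : ℝ) + 1)) k < ε / 2 :=
      h1.eventually_lt_const (by positivity)
    obtain ⟨n, h4⟩ := h3.exists
    exact ⟨n, h4.le⟩
  refine ⟨1 / ((n : ℝ) + 1), by positivity, fun θ hθ hθn K => ?_⟩
  simp only [← hI]
  have hIs : Summable (I θ) :=
    Summable.of_nonneg_of_le (hI0 θ) (hIJ θ hθ) (hJs.mul_left _)
  have h5 : ∑ k ∈ Finset.range (K + 1), I θ k ≤ ∑' k, I θ k :=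
    hIs.sum_le_tsum _ fun k _ => hI0 θ k
  have h6' : ∑ k ∈ Finset.range K₀, I θ k + ∑' k, I θ (k + K₀) = ∑' k, I θ k :=
    hIs.sum_add_tsum_nat_add K₀
  have h7 : ∑ k ∈ Finset.range K₀, I θ k ≤ ε / 2 :=
    (Finset.sum_le_sum fun k _ => hImono θ _ hθ hθn k).trans hn
  have h8' : ∑' k, I θ (k + K₀) ≤ B ^ 2 * ∑' k, J (k + K₀) := by
    rw [← tsum_mul_left]
    exact ((summable_nat_add_iff K₀).2 hIs).tsum_le_tsum (fun k => hIJ θ hθ (k + K₀))
      (((summable_nat_add_iff K₀).2 hJs).mul_left _)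
  linarith

end Pool.Agent.Work.MP_122e00_nt.Core
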