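import Pool.Agent.Work.MP_122e00_nt.Core.Stmts
import Pool.Agent.Work.MP_122e00_nt.Bd.B44

set_option autoImplicit false

/-!
# Item C3: the mean value of the chain scheme with a weight
-/

namespace Pool.Agent.Work.MP_122e00_nt.Core

open Finset Filter Topology MeasureTheory

open Two Gen

namespace IC3

lemma Pl_nonneg {s k : ℕ} {g : (Fin (s + 1) → ℝ) → ℝ} (hg : ∀ v, 0 ≤ g v) (x : Fin k → ℝ)
    (v : Fin (s + 1) → ℝ) : 0 ≤ Pl g x v :=
  Finset.sum_nonneg fun _ _ => hg _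

lemma Pl_le {s k : ℕ} {g : (Fin (s + 1) → ℝ) → ℝ} {B : ℝ} (hg : ∀ v, g v ≤ B) (x : Fin k → ℝ)
    (v : Fin (s + 1) → ℝ) : Pl g x v ≤ B * ((s : ℝ) + 1) ^ k := by
  unfold Pl
  refine (Finset.sum_le_card_nsmul _ _ B fun _ _ => hg _).trans (le_of_eq ?_)
  rw [Finset.card_univ, Fintype.card_fun, Fintype.card_fin, Fintype.card_fin, nsmul_eq_mul]
  push_cast
  ring

lemma sq_le {s k : ℕ} {g : (Fin (s + 1) → ℝ) → ℝ} {B : ℝ} (hB : 1 ≤ B)
    (hg : ∀ v, 0 ≤ g v ∧ g v ≤ B) (x : Fin (k + 1) → ℝ) (v : Fin (s + 1) → ℝ) :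
    (Pl g x v) ^ 2 ≤ (B ^ 2 * ((s : ℝ) + 1) ^ 2) ^ (k + 1) := by
  have h0 := Pl_nonneg (fun v => (hg v).1) x v
  have h1 := Pl_le (fun v => (hg v).2) x v
  have hB0 : 0 ≤ B := zero_le_one.trans hB
  have hB2 : 1 ≤ B ^ 2 := one_le_pow₀ hB
  calc (Pl g x v) ^ 2 ≤ (B * ((s : ℝ) + 1) ^ (k + 1)) ^ 2 := pow_le_pow_left₀ h0 h1 2
    _ = B ^ 2 * (((s : ℝ) + 1) ^ 2) ^ (k + 1) := by
        rw [mul_pow, ← pow_mul, ← pow_mul, mul_comm (k + 1) 2]
    _ ≤ (B ^ 2) ^ (k + 1) * (((s : ℝ) + 1) ^ 2) ^ (k + 1) := by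
        refine mul_le_mul_of_nonneg_right ?_ (by positivity)
        exact le_self_pow₀ hB2 (Nat.succ_ne_zero k)
    _ = (B ^ 2 * ((s : ℝ) + 1) ^ 2) ^ (k + 1) := (mul_pow _ _ _).symm

lemma cont_snoc (k s : ℕ) (q : Fin (s + 1)) :
    Continuous fun p : (Fin k ⊕ Fin s → ℝ) × ℝ =>
      (Fin.snoc (fun i => p.1 (Sum.inr i)) p.2 : Fin (s + 1) → ℝ) q := by
  refine Fin.lastCases ?_ (fun i => ?_) q
  · simp only [Fin.snoc_last]
    exact continuous_snd
  · simp only [Fin.snoc_castSucc]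
    exact (continuous_apply _).comp continuous_fst

lemma cont_Pl {k s : ℕ} {g : (Fin (s + 1) → ℝ) → ℝ} (hg : Continuous g) :
    Continuous fun p : (Fin k ⊕ Fin s → ℝ) × ℝ =>
      Pl g (fun i => p.1 (Sum.inl i)) (Fin.snoc (fun i => p.1 (Sum.inr i)) p.2) := by
  unfold Pl
  refine continuous_finsetSum _ fun c _ => hg.comp (continuous_pi fun q => ?_)
  refine (cont_snoc k s q).add (continuous_finsetSum _ fun j _ => ?_)
  by_cases h : c j = q
  · simp only [if_pos h]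
    exact (continuous_apply _).comp continuous_fst
  · simp only [if_neg h]
    exact continuous_const

lemma aeFG (s k : ℕ) (c : ℝ) {g : (Fin (s + 1) → ℝ) → ℝ} (hg : Continuous g) :
    ∀ᵐ y ∂(volume.restrict (Sim k s)), ContinuousAt (ext (FG s c g k)) (y, 1 - ∑ i, y i) := by
  classical
  rcases k with _ | k
  · refine Eventually.of_forall fun y => ?_
    have : ext (FG s c g 0) = fun _ => (0 : ℝ) := by
      funext p
      rfl
    rw [this]
    exact continuousAt_const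
  · have hD : ∀ᵐ y : Fin (k + 1) ⊕ Fin s → ℝ, ∀ᶠ p : (Fin (k + 1) ⊕ Fin s → ℝ) × ℝ in
        𝓝 (y, 1 - ∑ i, y i), ((∑ j : Fin k, p.1 (Sum.inl j.castSucc) < c) ↔
          (∑ j : Fin k, y (Sum.inl j.castSucc) < c)) := by
      rcases k with _ | k
      · exact Eventually.of_forall fun y => Eventually.of_forall fun p => by simp
      · filter_upwards [IB7.aeD k s c] with y hy
        have hc : Continuous (fun p : (Fin (k + 2) ⊕ Fin s → ℝ) × ℝ =>
          ∑ j : Fin (k + 1), p.1 (Sum.inl j.castSucc)) := by fun_prop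
        exact IB7.ev_lt (f := fun p : (Fin (k + 2) ⊕ Fin s → ℝ) × ℝ =>
          ∑ j : Fin (k + 1), p.1 (Sum.inl j.castSucc)) (g := fun _ => c)
          hc.continuousAt continuousAt_const hy
    filter_upwards [ae_restrict_of_ae (IB7.aeC k s c), ae_restrict_of_ae hD] with y hy1 hy2
    have hc : Continuous (fun p : (Fin (k + 1) ⊕ Fin s → ℝ) × ℝ =>
      ∑ j : Fin (k + 1), p.1 (Sum.inl j)) := by fun_prop
    have h1 := IB7.ev_lt (f := fun p : (Fin (k + 1) ⊕ Fin s → ℝ) × ℝ =>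
      ∑ j : Fin (k + 1), p.1 (Sum.inl j)) (g := fun _ => c) (p0 := (y, 1 - ∑ i, y i))
      hc.continuousAt continuousAt_const hy1
    have hk : ContinuousAt (fun p : (Fin (k + 1) ⊕ Fin s → ℝ) × ℝ =>
      if stp c (fun i => y (Sum.inl i)) then
        (Pl g (fun i => p.1 (Sum.inl i)) (Fin.snoc (fun i => p.1 (Sum.inr i)) p.2)) ^ 2 else 0)
      (y, 1 - ∑ i, y i) := by
      by_cases h : stp c (fun i => y (Sum.inl i))
      · simp only [if_pos h]
        exact ((cont_Pl hg).pow 2).continuousAt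
      · simp only [if_neg h]
        exact continuousAt_const
    refine hk.congr ?_
    filter_upwards [h1, hy2] with p h1 h2
    have e : stp c (fun i => p.1 (Sum.inl i)) ↔ stp c (fun i => y (Sum.inl i)) := by
      unfold stp
      refine and_congr ?_ h2
      rw [← not_lt, ← not_lt]
      exact not_congr h1
    show _ = FG s c g (k + 1) (fun i => p.1 (Sum.inl i)) (Fin.snoc (fun i => p.1 (Sum.inr i)) p.2)
    simp only [FG]
    by_cases h : stp c (fun i => y (Sum.inl i))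
    · rw [if_pos h, if_pos (e.2 h)]
    · rw [if_neg h, if_neg fun h' => h (e.1 h')]

end IC3

open IC3 in
theorem prC3 (hM3 : claimM3) : claimC3 := by
  classical
  intro s h θ c B I ψ g hs hh h0 h1 hW hc hc1 hB hg hgc hI
  have hB2 : 1 ≤ B ^ 2 := one_le_pow₀ hB
  have hs1 : (1 : ℝ) ≤ ((s : ℝ) + 1) ^ 2 :=
    one_le_pow₀ (by linarith [(Nat.cast_nonneg s : (0 : ℝ) ≤ s)])
  have hC : 1 ≤ B ^ 2 * ((s : ℝ) + 1) ^ 2 := one_le_mul_of_one_le_of_one_le hB2 hs1
  have hC0 : 0 ≤ B ^ 2 * ((s : ℝ) + 1) ^ 2 := zero_le_one.trans hC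
  refine hM3 s h θ ψ hs hh h0 h1 hW (FG s c g) (B ^ 2 * ((s : ℝ) + 1) ^ 2) c I hC hc hc1 ?_ ?_
    (fun k => aeFG s k c hgc) hI
  · intro k x v
    rcases k with _ | k
    · simp [FG]
    · simp only [FG]
      split_ifs
      · exact ⟨sq_nonneg _, sq_le hB hg x v⟩
      · exact ⟨le_refl _, pow_nonneg hC0 _⟩
  · intro k x v
    simp only [FG, FL]
    split_ifs with h1 h2 h2
    · rw [mul_one]
      exact sq_le hB hg x v
    · exact absurd h1.2 h2
    · rw [mul_one]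
      exact pow_nonneg hC0 _
    · rw [mul_zero]

end Pool.Agent.Work.MP_122e00_nt.Core
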