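import Pool.Agent.Work.MP_122e00_nt.Core.Stmts
import Pool.Agent.Work.MP_122e00_nt.Euler4

set_option autoImplicit false

/-!
# Item C6: the thin part, against the divisor function at the shifted argument
-/

namespace Pool.Agent.Work.MP_122e00_nt.Core

open Finset Filter Topology MeasureTheory

open Two Gen

namespace IC6

theorem tent_nonneg (θ t : ℝ) : 0 ≤ tent θ t := le_max_left _ _

theorem tent_le {θ : ℝ} (hθ : 0 < θ) (t : ℝ) : tent θ t ≤ 2 := by
  unfold tent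
  apply max_le (by norm_num)
  have : 0 ≤ |t - 1 / 2| / θ := by positivity
  linarith

theorem tw_nonneg (s : ℕ) (θ : ℝ) (v : Fin (s + 1) → ℝ) : 0 ≤ tw s θ v :=
  Finset.sum_nonneg fun i _ => tent_nonneg θ (v i)

theorem tw_le (s : ℕ) {θ : ℝ} (hθ : 0 < θ) (v : Fin (s + 1) → ℝ) :
    tw s θ v ≤ 2 * ((s : ℝ) + 1) := by
  unfold tw
  calc ∑ i, tent θ (v i) ≤ ∑ _i : Fin (s + 1), (2 : ℝ) :=
        Finset.sum_le_sum fun i _ => tent_le hθ (v i)
    _ = 2 * ((s : ℝ) + 1) := by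
        rw [Finset.sum_const, Finset.card_univ, Fintype.card_fin, nsmul_eq_mul]
        push_cast
        ring

theorem tw_cont (s : ℕ) (θ : ℝ) : Continuous (tw s θ) := by
  unfold tw
  apply continuous_finsetSum
  intro i _
  unfold tent
  fun_prop

theorem Pl_one (s k : ℕ) (x : Fin k → ℝ) (v : Fin (s + 1) → ℝ) :
    Pl (fun _ => (1 : ℝ)) x v = ((s : ℝ) + 1) ^ k := by
  unfold Pl
  rw [Finset.sum_const, Finset.card_univ, Fintype.card_fun, Fintype.card_fin, Fintype.card_fin,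
    nsmul_eq_mul]
  push_cast
  ring

open Classical in
theorem FG_one (s : ℕ) (c : ℝ) (k : ℕ) : FG s c (fun _ => 1) k = FB s c k := by
  funext x v
  cases k with
  | zero => rfl
  | succ k =>
    change (if stp c x then (Pl (fun _ => (1 : ℝ)) x v) ^ 2 else 0) =
      (if stp c x then ((s : ℝ) + 1) ^ (2 * (k + 1)) else 0)
    rw [Pl_one, ← pow_mul, mul_comm]

theorem Tg_nonneg (s : ℕ) (g : (Fin (s + 1) → ℝ) → ℝ) (hg : ∀ v, 0 ≤ g v) (L : ℝ) (n : ℕ) :
    0 ≤ Tg s g L n := by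
  unfold Tg TS
  exact Finset.sum_nonneg fun v _ => hg _

theorem Tg_le (s : ℕ) (g : (Fin (s + 1) → ℝ) → ℝ) (B : ℝ) (hg : ∀ v, g v ≤ B) (L : ℝ) (n : ℕ) :
    Tg s g L n ≤ B * Tg s (fun _ => 1) L n := by
  unfold Tg TS
  rw [Finset.mul_sum]
  apply Finset.sum_le_sum
  intro v _
  rw [mul_one]
  exact hg _

theorem Tg_one (h3 : claimB3) (s : ℕ) (L : ℝ) (n : ℕ) (hn : n ≠ 0) :
    Tg s (fun _ => 1) L n = dv s n := h3.2 L s n hn

theorem dv_nonneg (s n : ℕ) : 0 ≤ dv s n := by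
  unfold dv
  exact Nat.cast_nonneg _

end IC6

open IC6 in
theorem prC6 (h3 : claimB3) (h9 : claimB9) (h10 : claimB10) (c2 : claimC2) (c3 : claimC3)
    (c4 : claimC4) (c5 : claimC5) : claimC6 := by
  intro s h ε hs hh hε
  have hs' : (1 : ℝ) ≤ (s : ℝ) := by exact_mod_cast hs
  obtain ⟨c, hc⟩ : ∃ c : ℝ, c = ((s : ℝ) - 1) / (2 * s) + 2 * (1 / 10) := ⟨_, rfl⟩
  have hq0 : 0 ≤ ((s : ℝ) - 1) / (2 * s) := by
    apply div_nonneg <;> linarith
  have hq1 : ((s : ℝ) - 1) / (2 * s) ≤ 1 / 2 := by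
    rw [div_le_iff₀ (by linarith)]
    linarith
  have hc0 : 0 < c := by rw [hc]; linarith
  have hc1 : c < 1 := by rw [hc]; linarith
  obtain ⟨hW, hint⟩ := h10 s (1 / 10) hs (by norm_num) (by norm_num)
  have hint0 : 0 ≤ ∫ y in O1 s, ps s (1 / 10) y := by
    rw [hint]
    positivity
  have hB : (1 : ℝ) ≤ 2 * ((s : ℝ) + 1) := by linarith
  obtain ⟨I', hI'⟩ : ∃ I' : ℝ, I' = ((s : ℝ) + 1) ^ 2 * (1 - c) ^ (s + 1) /
        (((s + 1).factorial : ℝ) * (1 - c) ^ ((s + 1) ^ 2)) := ⟨_, rfl⟩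
  have hI'0 : 0 ≤ I' := by
    rw [hI']
    have : 0 < 1 - c := by linarith
    positivity
  obtain ⟨A, hA⟩ : ∃ A : ℝ, A = ((s : ℝ) + 1) * (Csing s h * ∫ y in O1 s, ps s (1 / 10) y) :=
    ⟨_, rfl⟩
  have hA0 : 0 ≤ A := by
    rw [hA]
    have := (Csing_pos hs h hh).le
    positivity
  obtain ⟨lam, hlam⟩ : ∃ lam : ℝ, lam = ε / (4 * (A * I' + 1)) := ⟨_, rfl⟩
  have hAI : 0 ≤ A * I' := mul_nonneg hA0 hI'0
  have hlam0 : 0 < lam := by rw [hlam]; positivity
  have hlam1 : A * (lam * I') ≤ ε / 4 := by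
    have h1 : lam * (4 * (A * I' + 1)) = ε := by
      rw [hlam]
      field_simp
    nlinarith
  obtain ⟨e, he⟩ : ∃ e : ℝ, e = lam * ε / (4 * (A + 1)) := ⟨_, rfl⟩
  have he0 : 0 < e := by rw [he]; positivity
  have he1 : A * (e / lam) ≤ ε / 4 := by
    have h1 : e / lam * (4 * (A + 1)) = ε := by
      rw [he]
      field_simp
    have h2 : 0 < e / lam := div_pos he0 hlam0
    nlinarith
  obtain ⟨θ₁, hθ₁, hC4⟩ := c4 s c e hs hc0 hc1 he0
  refine ⟨θ₁, hθ₁, ?_⟩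
  intro θ hθ hθle
  obtain ⟨ca, hca, hMa⟩ := c3 s h (1 / 10) c (2 * ((s : ℝ) + 1)) e (ps s (1 / 10)) (tw s θ) hs hh
    (by norm_num) (by norm_num) hW hc0 hc1 hB (fun v => ⟨tw_nonneg s θ v, tw_le s hθ v⟩)
    (tw_cont s θ) (hC4 θ hθ hθle)
  obtain ⟨cb, hcb, hMb⟩ := c3 s h (1 / 10) c (2 * ((s : ℝ) + 1)) I' (ps s (1 / 10)) (fun _ => 1)
    hs hh (by norm_num) (by norm_num) hW hc0 hc1 hB (fun v => ⟨zero_le_one, hB⟩)
    continuous_const (by
      intro K
      rw [hI']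
      have := h9 s c hs hc0 hc1 K
      simpa only [FG_one] using this)
  have hcm : 0 < min ca cb := lt_min hca hcb
  have hD1 := c2 s (1 / 10) c (min ca cb) (2 * ((s : ℝ) + 1)) (tw s θ) hs (by norm_num) le_rfl hc
    hcm hB (fun v => ⟨tw_nonneg s θ v, tw_le s hθ v⟩)
  have hD2 := c2 s (1 / 10) c (min ca cb) (2 * ((s : ℝ) + 1)) (fun _ => 1) hs (by norm_num) le_rfl
    hc hcm hB (fun v => ⟨zero_le_one, hB⟩)
  have h5 := c5 s h (1 / 10) (2 * ((s : ℝ) + 1)) e I' lam (ps s (1 / 10))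
    (fun X n => Tg s (tw s θ) (Real.log X) n) (fun X n => Tg s (fun _ => 1) (Real.log X) n)
    (HG s c (min ca cb) (tw s θ)) (HG s c (min ca cb) (fun _ => 1)) hs hh (by norm_num)
    (by norm_num) hW hB hlam0 hD1 hD2 (by
      filter_upwards [eventually_gt_atTop (1 : ℝ)] with X hX n hn1 hn2
      have hL : 0 < Real.log X := Real.log_pos hX
      have hn : n ≠ 0 := by
        intro h0
        rw [h0] at hn1
        have : 0 < X / Real.log X := by positivity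
        simp only [Nat.cast_zero] at hn1
        linarith
      have e1 := Tg_one h3 s (Real.log X) n hn
      constructor
      · rw [abs_of_nonneg (Tg_nonneg s _ (tw_nonneg s θ) _ _), ← e1]
        exact Tg_le s _ _ (tw_le s hθ) _ _
      · rw [abs_of_nonneg (Tg_nonneg s _ (fun _ => zero_le_one) _ _), e1]
        have := dv_nonneg s n
        nlinarith)
    (hMa _ hcm (min_le_left _ _)) (hMb _ hcm (min_le_right _ _)) (ε / 4) (by positivity)
  filter_upwards [h5, eventually_gt_atTop (1 : ℝ)] with X h5X hX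
  have hL : 0 < Real.log X := Real.log_pos hX
  have hsum : ∑ n ∈ Finset.Ioc ⌊X / Real.log X⌋₊ (⌊X⌋₊ - h),
        (Tg s (tw s θ) (Real.log X) n * dv s (n + h) +
          dv s n * Tg s (tw s θ) (Real.log X) (n + h)) =
      ∑ n ∈ Finset.Ioc ⌊X / Real.log X⌋₊ (⌊X⌋₊ - h),
        (|Tg s (tw s θ) (Real.log X) n| * |Tg s (fun _ => 1) (Real.log X) (n + h)| +
          |Tg s (fun _ => 1) (Real.log X) n| * |Tg s (tw s θ) (Real.log X) (n + h)|) := by
    apply Finset.sum_congr rfl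
    intro n hn
    rw [Finset.mem_Ioc] at hn
    have hn0 : n ≠ 0 := by omega
    have hn1 : n + h ≠ 0 := by omega
    rw [abs_of_nonneg (Tg_nonneg s _ (tw_nonneg s θ) _ n),
      abs_of_nonneg (Tg_nonneg s _ (tw_nonneg s θ) _ (n + h)),
      Tg_one h3 s _ n hn0, Tg_one h3 s _ (n + h) hn1, abs_of_nonneg (dv_nonneg s n),
      abs_of_nonneg (dv_nonneg s (n + h))]
  rw [hsum]
  refine h5X.trans ?_
  have hY : 0 ≤ X * (Real.log X) ^ (2 * s) := by positivity
  apply mul_le_mul_of_nonneg_right _ hY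
  have e1 : ((s : ℝ) + 1) * (Csing s h * ∫ y in O1 s, ps s (1 / 10) y) * (e / lam + lam * I') =
      A * (e / lam) + A * (lam * I') := by
    rw [← hA]
    ring
  rw [e1]
  linarith

end Pool.Agent.Work.MP_122e00_nt.Core
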