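import Pool.Agent.Work.MP_122e00_nt.Core.Stmts

set_option autoImplicit false

/-!
# Item C1: the decomposition of the divisor function
-/

namespace Pool.Agent.Work.MP_122e00_nt.Core

open Finset Filter Topology MeasureTheory

open Two Gen

namespace IC1

theorem ps_eq (s : ℕ) (θ : ℝ) (t : Fin (s + 1) → ℝ) (ht : ∀ i, 0 ≤ t i) (i : Fin (s + 1)) :
    ps s θ (fun j => t (i.succAbove j)) = if ∑ j, t j - t i ≤ 1 / 2 - θ then 1 else 0 := by
  have hsum : ∑ j, t j - t i = ∑ j, t (i.succAbove j) := by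
    rw [Fin.sum_univ_succAbove t i]
    ring
  rw [hsum]
  unfold ps
  by_cases h : ∑ j, t (i.succAbove j) ≤ 1 / 2 - θ
  · rw [if_pos h, Set.indicator_of_mem]
    exact ⟨fun j => ht _, h⟩
  · rw [if_neg h, Set.indicator_of_notMem]
    intro hm
    exact h hm.2

theorem tent_nonneg (θ t : ℝ) : 0 ≤ tent θ t := le_max_left _ _

theorem tw_nonneg (s : ℕ) (θ : ℝ) (t : Fin (s + 1) → ℝ) : 0 ≤ tw s θ t :=
  Finset.sum_nonneg fun _ _ => tent_nonneg θ _

open Classical in
theorem term (s : ℕ) (θ : ℝ) (hθ : 0 < θ) (t : Fin (s + 1) → ℝ) (ht : ∀ i, 0 ≤ t i)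
    (hlo : 1 - θ / 2 ≤ ∑ i, t i) (hhi : ∑ i, t i ≤ 1) :
    0 ≤ 1 - (if ∀ i, t i < 1 / 2 then (1 : ℝ) else 0) - gs (ps s θ) t ∧
    1 - (if ∀ i, t i < 1 / 2 then (1 : ℝ) else 0) - gs (ps s θ) t ≤ tw s θ t := by
  have hgs : gs (ps s θ) t = ∑ i, if ∑ j, t j - t i ≤ 1 / 2 - θ then (1 : ℝ) else 0 := by
    unfold gs
    exact Finset.sum_congr rfl fun i _ => ps_eq s θ t ht i
  by_cases hex : ∃ i, ∑ j, t j - t i ≤ 1 / 2 - θ
  · obtain ⟨i, hi⟩ := hex
    have hti : 1 / 2 + θ / 2 ≤ t i := by linarith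
    have hnc : ¬ ∀ i, t i < 1 / 2 := by
      intro h
      have := h i
      linarith
    have hone : gs (ps s θ) t = 1 := by
      rw [hgs, Finset.sum_eq_single i]
      · rw [if_pos hi]
      · intro i' _ hne
        rw [if_neg]
        have h2 : t i + t i' ≤ ∑ j, t j := by
          have h3 := Finset.sum_le_sum_of_subset_of_nonneg
            (Finset.subset_univ ({i, i'} : Finset (Fin (s + 1)))) (f := t)
            (fun j _ _ => ht j)
          rwa [Finset.sum_pair hne.symm] at h3
        linarith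
      · intro h
        exact absurd (Finset.mem_univ i) h
    rw [hone, if_neg hnc]
    refine ⟨by norm_num, ?_⟩
    have := tw_nonneg s θ t
    linarith
  · push Not at hex
    have hzero : gs (ps s θ) t = 0 := by
      rw [hgs]
      refine Finset.sum_eq_zero fun i _ => ?_
      rw [if_neg (not_le.mpr (hex i))]
    rw [hzero]
    by_cases hc : ∀ i, t i < 1 / 2
    · rw [if_pos hc]
      refine ⟨by norm_num, ?_⟩
      have := tw_nonneg s θ t
      linarith
    · rw [if_neg hc]
      refine ⟨by norm_num, ?_⟩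
      push Not at hc
      obtain ⟨i, hi⟩ := hc
      have h1 := hex i
      have h2 : |t i - 1 / 2| / θ ≤ 1 := by
        rw [div_le_one hθ, abs_le]
        constructor <;> linarith
      have h3 : 1 ≤ tent θ (t i) := le_trans (by linarith) (le_max_right _ _)
      have h4 : tent θ (t i) ≤ tw s θ t :=
        Finset.single_le_sum (f := fun i => tent θ (t i)) (fun j _ => tent_nonneg θ _)
          (Finset.mem_univ i)
      linarith

end IC1

theorem prC1 (h3 : claimB3) : claimC1 := by
  classical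
  intro s θ hs hθ hθ4
  have ev1 : ∀ᶠ X : ℝ in atTop, ‖Real.log (Real.log X)‖ ≤ θ / 2 * ‖id (Real.log X)‖ :=
    Real.tendsto_log_atTop.eventually
      (Real.isLittleO_log_id_atTop.def (by linarith : (0 : ℝ) < θ / 2))
  filter_upwards [ev1, eventually_gt_atTop (Real.exp 1)] with X h1 hX
  intro n hn1 hn2
  have hX0 : (0 : ℝ) < X := lt_trans (Real.exp_pos 1) hX
  have hL1 : 1 < Real.log X := by
    rw [Real.lt_log_iff_exp_lt hX0]
    exact hX
  have hL : 0 < Real.log X := by linarith
  have hnp : (0 : ℝ) < n := lt_of_lt_of_le (div_pos hX0 hL) hn1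
  have hn : n ≠ 0 := by
    intro h
    rw [h] at hnp
    simp at hnp
  have hlog : (1 - θ / 2) * Real.log X ≤ Real.log n := by
    have a1 : Real.log (X / Real.log X) ≤ Real.log n := Real.log_le_log (div_pos hX0 hL) hn1
    rw [Real.log_div hX0.ne' hL.ne'] at a1
    have a2 : Real.log (Real.log X) ≤ θ / 2 * Real.log X := by
      have := le_trans (le_abs_self _) h1
      simpa [abs_of_pos hL] using this
    linarith
  have hlo : 1 - θ / 2 ≤ Real.log n / Real.log X := by
    rw [le_div_iff₀ hL]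
    exact hlog
  have hhi : Real.log n / Real.log X ≤ 1 := by
    rw [div_le_one hL]
    exact Real.log_le_log hnp hn2
  have ed : dv s n = ∑ v ∈ Nat.finMulAntidiag (s + 1) n, (1 : ℝ) := by
    unfold dv
    rw [← h3.2 (Real.log X) s n hn]
    rfl
  have em : mc s X n = ∑ v ∈ Nat.finMulAntidiag (s + 1) n,
      if ∀ i, ((v i : ℕ) : ℝ) ^ 2 < X then (1 : ℝ) else 0 := by
    unfold mc
    rw [Finset.card_filter]
    push_cast
    refine Finset.sum_congr rfl fun v _ => ?_
    split_ifs <;> rfl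
  have eW : Wn s (ps s θ) (Real.log X) n = ∑ v ∈ Nat.finMulAntidiag (s + 1) n,
      gs (ps s θ) (fun i => Real.log (v i) / Real.log X) := rfl
  have eT : Tg s (tw s θ) (Real.log X) n = ∑ v ∈ Nat.finMulAntidiag (s + 1) n,
      tw s θ (fun i => Real.log (v i) / Real.log X) := rfl
  have key : ∀ v ∈ Nat.finMulAntidiag (s + 1) n,
      0 ≤ 1 - (if ∀ i, ((v i : ℕ) : ℝ) ^ 2 < X then (1 : ℝ) else 0) -
        gs (ps s θ) (fun i => Real.log (v i) / Real.log X) ∧
      1 - (if ∀ i, ((v i : ℕ) : ℝ) ^ 2 < X then (1 : ℝ) else 0) -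
        gs (ps s θ) (fun i => Real.log (v i) / Real.log X) ≤
        tw s θ (fun i => Real.log (v i) / Real.log X) := by
    intro v hv
    have hprod : ∏ i, v i = n := Nat.prod_eq_of_mem_finMulAntidiag hv
    have hv0 : ∀ i, v i ≠ 0 := fun i h0 => hn (by
      rw [← hprod]
      exact Finset.prod_eq_zero (Finset.mem_univ i) h0)
    have hv1 : ∀ i, (0 : ℝ) < (v i : ℝ) := fun i => by
      exact_mod_cast Nat.pos_of_ne_zero (hv0 i)
    have hsum : ∑ i, Real.log (v i) / Real.log X = Real.log n / Real.log X := by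
      rw [← Finset.sum_div, ← hprod]
      push_cast
      rw [Real.log_prod (fun i _ => (hv1 i).ne')]
    have ht : ∀ i, 0 ≤ Real.log (v i) / Real.log X := fun i =>
      div_nonneg (Real.log_natCast_nonneg _) hL.le
    have hiff : (∀ i, ((v i : ℕ) : ℝ) ^ 2 < X) ↔
        ∀ i, Real.log (v i) / Real.log X < 1 / 2 := by
      refine forall_congr' fun i => ?_
      rw [div_lt_iff₀ hL, ← Real.log_lt_log_iff (pow_pos (hv1 i) 2) hX0, Real.log_pow]
      push_cast
      constructor <;> intro h <;> linarith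
    have := IC1.term s θ hθ (fun i => Real.log (v i) / Real.log X) ht
      (by rw [hsum]; exact hlo) (by rw [hsum]; exact hhi)
    by_cases hc : ∀ i, ((v i : ℕ) : ℝ) ^ 2 < X
    · rw [if_pos hc]
      rw [if_pos (hiff.1 hc)] at this
      exact this
    · rw [if_neg hc]
      rw [if_neg (fun h => hc (hiff.2 h))] at this
      exact this
  rw [ed, em, eW, eT, ← Finset.sum_sub_distrib, ← Finset.sum_sub_distrib]
  exact ⟨Finset.sum_nonneg fun v hv => (key v hv).1, Finset.sum_le_sum fun v hv => (key v hv).2⟩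

end Pool.Agent.Work.MP_122e00_nt.Core
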