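import Pool.Agent.Work.MP_122e00_nt.Core.Stmts

set_option autoImplicit false

/-!
# Exact reduction to the core: item C10, asymptotics with a polynomial in `log X`
-/

namespace Pool.Agent.Work.MP_122e00_nt.Core

open Finset Filter Topology MeasureTheory

open Two Gen

namespace IC10

theorem ev_pos : ∀ᶠ X : ℝ in atTop, 0 < X ∧ 0 < Real.log X := by
  filter_upwards [eventually_gt_atTop (0 : ℝ), Real.tendsto_log_atTop.eventually_gt_atTop 0]
    with X h1 h2
  exact ⟨h1, h2⟩

theorem poly_lim (P : Polynomial ℝ) (m : ℕ) (hm : P.natDegree = m) :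
    Tendsto (fun X : ℝ => P.eval (Real.log X) / (Real.log X) ^ m) atTop
      (𝓝 P.leadingCoeff) := by
  have h1 := P.isEquivalent_atTop_lead
  have h2 := h1.comp_tendsto Real.tendsto_log_atTop
  have h3 : Asymptotics.IsEquivalent atTop
      (fun X : ℝ => P.eval (Real.log X) / (Real.log X) ^ m)
      (fun X : ℝ => (P.leadingCoeff * (Real.log X) ^ P.natDegree) / (Real.log X) ^ m) :=
    h2.div (Asymptotics.IsEquivalent.refl)
  refine (h3.symm).tendsto_nhds ?_
  refine Tendsto.congr' ?_ tendsto_const_nhds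
  filter_upwards [ev_pos] with X hX
  rw [hm]
  field_simp [(pow_pos hX.2 m).ne']

theorem forward (m : ℕ) (D : ℝ → ℝ) (hm : 1 ≤ m) (P : Polynomial ℝ) (hP : P.natDegree = m)
    (hD : Asymptotics.IsEquivalent atTop D (fun X : ℝ => X * P.eval (Real.log X))) :
    ∃ l : ℝ, l ≠ 0 ∧ Tendsto (fun X : ℝ => D X / (X * (Real.log X) ^ m)) atTop (𝓝 l) := by
  have hP0 : P ≠ 0 := by
    rintro rfl
    rw [Polynomial.natDegree_zero] at hP
    omega
  refine ⟨P.leadingCoeff, Polynomial.leadingCoeff_ne_zero.mpr hP0, ?_⟩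
  have h3 : Asymptotics.IsEquivalent atTop
      (fun X : ℝ => D X / (X * (Real.log X) ^ m))
      (fun X : ℝ => (X * P.eval (Real.log X)) / (X * (Real.log X) ^ m)) :=
    hD.div (Asymptotics.IsEquivalent.refl)
  refine (h3.symm).tendsto_nhds ?_
  refine Tendsto.congr' ?_ (poly_lim P m hP)
  filter_upwards [ev_pos] with X hX
  rw [mul_div_mul_left _ _ hX.1.ne']

theorem backward (m : ℕ) (D : ℝ → ℝ) (l : ℝ) (hl : l ≠ 0)
    (h : Tendsto (fun X : ℝ => D X / (X * (Real.log X) ^ m)) atTop (𝓝 l)) :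
    ∃ P : Polynomial ℝ, P.natDegree = m ∧
      Asymptotics.IsEquivalent atTop D (fun X : ℝ => X * P.eval (Real.log X)) := by
  refine ⟨Polynomial.C l * Polynomial.X ^ m, Polynomial.natDegree_C_mul_X_pow m l hl, ?_⟩
  apply Asymptotics.isEquivalent_of_tendsto_one
  have h1 : Tendsto (fun X : ℝ => D X / (X * (Real.log X) ^ m) / l) atTop (𝓝 (l / l)) :=
    h.div_const l
  rw [div_self hl] at h1
  refine Tendsto.congr' ?_ h1
  filter_upwards [ev_pos] with X hX
  simp only [Pi.div_apply, Polynomial.eval_mul, Polynomial.eval_C, Polynomial.eval_pow,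
    Polynomial.eval_X]
  rw [div_div]
  congr 1
  ring

end IC10

/-- C10. -/
theorem prC10 : claimC10 := by
  intro m D hm
  constructor
  · rintro ⟨P, hP, hD⟩
    exact IC10.forward m D hm P hP hD
  · rintro ⟨l, hl, h⟩
    exact IC10.backward m D l hl h

end Pool.Agent.Work.MP_122e00_nt.Core
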