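import Pool.Agent.Work.MP_122e00_nt.Core.Stmts
import Pool.Agent.Work.MP_122e00_nt.Bd.B48

set_option autoImplicit false

/-!
# Item C7: the part of level `1 / 2`
-/

namespace Pool.Agent.Work.MP_122e00_nt.Core

open Finset Filter Topology MeasureTheory

open scoped ArithmeticFunction.vonMangoldt ArithmeticFunction.zeta

open Two Gen

namespace IC7

/-- The expansion, for abstract functions. -/
theorem core (r : ℝ) (hr : 0 ≤ r) (A N h : ℕ) (d W a b : ℕ → ℝ) (y : ℝ)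
    (hd0 : ∀ n, 0 ≤ d n) (hW0 : ∀ n, n ≠ 0 → 0 ≤ W n) (ha0 : ∀ n, 0 ≤ a n) (hb0 : ∀ n, 0 ≤ b n)
    (ha : ∀ n, n ≠ 0 → W (n + h) = r * a n) (hb : ∀ n, n ≠ 0 → W n = r * b (n + h))
    (hdy : ∀ n, n ≤ N + h → d n ≤ y)
    (hWy : ∀ n, n ≠ 0 → n ≤ N + h → W n ≤ y) (hay : ∀ n ∈ Ioc A N, a n ≤ y)
    (hby : ∀ n ∈ Ioc A N, b n ≤ y) (hy : 0 ≤ y) :
    |∑ n ∈ Ioc A (N - h), (d n - W n) * (d (n + h) - W (n + h)) -
      (∑ n ∈ Ioc A N, d n * d (n + h) - r * (∑ n ∈ Ioc A N, a n * d n +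
      ∑ n ∈ Ioc A N, b n * d n - ∑ n ∈ Ioc A N, a n * W n))| ≤
      (h + 3 * r * h) * (y * y) := by
  obtain ⟨J, hJ⟩ : ∃ J : Finset ℕ, J = Ioc A (N - h) := ⟨_, rfl⟩
  obtain ⟨J', hJ'⟩ : ∃ J' : Finset ℕ, J' = J.map (addRightEmbedding h) := ⟨_, rfl⟩
  obtain ⟨T, hT⟩ : ∃ T : Finset ℕ, T = Ioc A N := ⟨_, rfl⟩
  rw [← hT] at hay hby ⊢
  rw [← hJ]
  have hJT : J ⊆ T := by
    intro n hn
    rw [hJ, Finset.mem_Ioc] at hn
    rw [hT, Finset.mem_Ioc]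
    omega
  have hJT' : J' ⊆ T := by
    intro m hm
    rw [hJ', Finset.mem_map] at hm
    obtain ⟨n, hn, rfl⟩ := hm
    rw [hJ, Finset.mem_Ioc] at hn
    rw [hT, Finset.mem_Ioc]
    simp only [addRightEmbedding_apply]
    omega
  have hcJ : T.card ≤ J.card + h := by
    rw [hJ, hT, Nat.card_Ioc, Nat.card_Ioc]; omega
  have hcJ' : T.card ≤ J'.card + h := by
    rw [hJ', Finset.card_map]; exact hcJ
  have hTn : ∀ n ∈ T, n ≠ 0 ∧ n ≤ N := by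
    intro n hn
    rw [hT, Finset.mem_Ioc] at hn
    omega
  have hyy : 0 ≤ y * y := mul_nonneg hy hy
  -- the four differences
  obtain ⟨p1, p2⟩ := IN3.diffsum J T hJT h hcJ (fun n => d n * d (n + h)) (y * y) hyy
    (fun n _ => mul_nonneg (hd0 _) (hd0 _))
    (fun n hn => mul_le_mul (hdy n (by have := hTn n hn; omega))
      (hdy _ (by have := hTn n hn; omega)) (hd0 _) hy)
  obtain ⟨p3, p4⟩ := IN3.diffsum J T hJT h hcJ (fun n => a n * d n) (y * y) hyy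
    (fun n _ => mul_nonneg (ha0 _) (hd0 _))
    (fun n hn => mul_le_mul (hay n hn) (hdy _ (by have := hTn n hn; omega)) (hd0 _) hy)
  obtain ⟨p5, p6⟩ := IN3.diffsum J' T hJT' h hcJ' (fun n => b n * d n) (y * y) hyy
    (fun n _ => mul_nonneg (hb0 _) (hd0 _))
    (fun n hn => mul_le_mul (hby n hn) (hdy _ (by have := hTn n hn; omega)) (hd0 _) hy)
  obtain ⟨p7, p8⟩ := IN3.diffsum J T hJT h hcJ (fun n => a n * W n) (y * y) hyy
    (fun n hn => mul_nonneg (ha0 _) (hW0 n (hTn n hn).1))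
    (fun n hn => mul_le_mul (hay n hn) (hWy n (hTn n hn).1 (by have := hTn n hn; omega))
      (hW0 n (hTn n hn).1) hy)
  have hmap : ∀ g : ℕ → ℝ, ∑ m ∈ J', g m = ∑ n ∈ J, g (n + h) := by
    intro g
    rw [hJ', Finset.sum_map]
    rfl
  rw [hmap] at p5 p6
  -- the products
  have hid : ∑ n ∈ J, d n * d (n + h) = r * (∑ n ∈ J, a n * d n +
      ∑ n ∈ J, b (n + h) * d (n + h) - ∑ n ∈ J, a n * W n) +
      ∑ n ∈ J, (d n - W n) * (d (n + h) - W (n + h)) := by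
    rw [← Finset.sum_add_distrib, ← Finset.sum_sub_distrib, Finset.mul_sum,
      ← Finset.sum_add_distrib]
    refine Finset.sum_congr rfl fun n hn => ?_
    have hn0 := (hTn n (hJT hn)).1
    have e1 := ha n hn0
    have e2 := hb n hn0
    have e3 : r * (a n * d n + b (n + h) * d (n + h) - a n * W n) =
        (r * a n) * d n + (r * b (n + h)) * d (n + h) - (r * a n) * W n := by ring
    rw [e3, ← e1, ← e2]
    ring
  have r3 := mul_nonneg hr p3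
  have r4 := mul_le_mul_of_nonneg_left p4 hr
  have r5 := mul_nonneg hr p5
  have r6 := mul_le_mul_of_nonneg_left p6 hr
  have r7 := mul_nonneg hr p7
  have r8 := mul_le_mul_of_nonneg_left p8 hr
  have hhy : 0 ≤ r * ((h : ℝ) * (y * y)) := by positivity
  have hhy' : 0 ≤ (h : ℝ) * (y * y) := by positivity
  rw [abs_le]
  constructor
  · linarith
  · linarith

/-- The two sided mean values, combined. -/
theorem comb (r Cs I f b Y S1 S2 S3 δ' : ℝ) (hr : 0 ≤ r) (hb : b = r * I)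
    (h1 : S1 ≤ (Cs * I * f + δ') * Y) (h1' : -S1 ≤ (Cs * I * (-f) + δ') * Y)
    (h2 : S2 ≤ (Cs * I * f + δ') * Y) (h2' : -S2 ≤ (Cs * I * (-f) + δ') * Y)
    (h3 : S3 ≤ (Cs * I * b + δ') * Y) (h3' : -S3 ≤ (Cs * I * (-b) + δ') * Y) :
    |r * (S1 + S2 - S3) - Cs * (2 * b * f - b ^ 2) * Y| ≤ 3 * r * δ' * Y := by
  have e : r * (S1 + S2 - S3) - Cs * (2 * b * f - b ^ 2) * Y =
      r * (S1 + S2 - S3 - (2 * (Cs * I * f * Y) - Cs * I * b * Y)) := by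
    rw [hb]
    ring
  rw [e, abs_mul, abs_of_nonneg hr]
  have h4 : |S1 + S2 - S3 - (2 * (Cs * I * f * Y) - Cs * I * b * Y)| ≤ 3 * (δ' * Y) := by
    rw [abs_le]
    constructor <;> linarith
  calc r * |S1 + S2 - S3 - (2 * (Cs * I * f * Y) - Cs * I * b * Y)| ≤ r * (3 * (δ' * Y)) :=
        mul_le_mul_of_nonneg_left h4 hr
    _ = 3 * r * δ' * Y := by ring

end IC7

open IC7 in
theorem prC7 (g1 : Gen.claimG1) (n1 : claimN1) (n2 : claimN2) : claimC7 := by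
  intro s h θ b δ ψ hs hh hθ hθ1 hW hb' hδ
  obtain ⟨B, hB⟩ := hW.bdd
  have hB0 : 0 ≤ B := (hW.nonneg 0).trans (hB 0)
  have hs0 : (0 : ℝ) ≤ s := Nat.cast_nonneg _
  have hr0 : (0 : ℝ) < (s : ℝ) + 1 := by linarith
  obtain ⟨M, hM⟩ : ∃ M : ℝ, M = 1 + (s + 1) * B := ⟨_, rfl⟩
  have hM1 : 1 ≤ M := by
    rw [hM]
    have : 0 ≤ ((s : ℝ) + 1) * B := by positivity
    linarith
  obtain ⟨K, hK⟩ : ∃ K : ℝ, K = ((h : ℝ) + 3 * ((s : ℝ) + 1) * h) * (M * M) := ⟨_, rfl⟩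
  obtain ⟨δ', hδ'⟩ : ∃ δ' : ℝ, δ' = δ / (6 * ((s : ℝ) + 1)) := ⟨_, rfl⟩
  have hδ'0 : 0 < δ' := by rw [hδ']; positivity
  have e6 := Two.IU9.zeta_pow_le s (δ := 1 / 4) (by norm_num)
  have e9 := Real.tendsto_log_atTop.eventually (eventually_ge_atTop (1 : ℝ))
  have e10 : ∀ᶠ X : ℝ in atTop, K * X ^ (1 / 4 : ℝ) ≤ δ / 2 * X := by
    have h1 : ∀ᶠ X : ℝ in atTop, K / (δ / 2) ≤ X ^ (3 / 4 : ℝ) :=
      (tendsto_rpow_atTop (by norm_num)).eventually_ge_atTop _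
    filter_upwards [h1, eventually_gt_atTop (0 : ℝ)] with X hX hX0
    have h2 : K ≤ δ / 2 * X ^ (3 / 4 : ℝ) := by
      rw [div_le_iff₀ (by positivity)] at hX
      linarith
    calc K * X ^ (1 / 4 : ℝ) ≤ (δ / 2 * X ^ (3 / 4 : ℝ)) * X ^ (1 / 4 : ℝ) :=
          mul_le_mul_of_nonneg_right h2 (by positivity)
      _ = δ / 2 * X := by
          rw [mul_assoc, ← Real.rpow_add hX0]
          norm_num
  have e11 : ∀ᶠ X : ℝ in atTop, (h : ℝ) + 1 ≤ X / Real.log X := by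
    have h2 : Tendsto (fun X : ℝ => Real.log X / X) atTop (𝓝 0) := by
      simpa using (Real.isLittleO_log_id_atTop.tendsto_div_nhds_zero)
    have h3 : (0 : ℝ) < 1 / ((h : ℝ) + 1) := by positivity
    filter_upwards [h2.eventually (gt_mem_nhds h3), e9, eventually_gt_atTop (0 : ℝ)]
      with X hX hL hX0
    rw [le_div_iff₀ (by linarith)]
    rw [div_lt_div_iff₀ hX0 (by positivity)] at hX
    linarith
  filter_upwards [(n1 s h θ ψ hs hh hθ hθ1 hW).1 δ' hδ'0, (n1 s h θ ψ hs hh hθ hθ1 hW).2 δ' hδ'0,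
    (n2 s h θ ψ hs hh hθ hθ1 hW).1 δ' hδ'0, (n2 s h θ ψ hs hh hθ hθ1 hW).2 δ' hδ'0,
    e6, e9, e10, e11, eventually_ge_atTop (2 : ℝ), eventually_ge_atTop (h : ℝ)]
    with X m1 m2 m3 m4 h6 h9 h10 h11 hX2 hXh
  have hX0 : 0 < X := by linarith
  have hX1 : 1 < X := by linarith
  obtain ⟨L, hL⟩ : ∃ L : ℝ, L = Real.log X := ⟨_, rfl⟩
  have hL1 : 1 ≤ L := by rw [hL]; exact h9
  have hL0 : 0 < L := by linarith
  obtain ⟨N, hN⟩ : ∃ N : ℕ, N = ⌊X⌋₊ := ⟨_, rfl⟩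
  obtain ⟨A, hA⟩ : ∃ A : ℕ, A = ⌊X / L⌋₊ := ⟨_, rfl⟩
  have hza : (-(h : ℤ)).natAbs = h := by simp
  have hzb : ((h : ℤ)).natAbs = h := by simp
  have q1 := m1 _ hza
  have q2 := m2 _ hza
  have q3 := m1 _ hzb
  have q4 := m2 _ hzb
  have q5 := m3 _ hza
  have q6 := m4 _ hza
  rw [← hL] at h11 q1 q2 q3 q4 q5 q6 ⊢
  rw [← hN, ← hA] at q1 q2 q3 q4 q5 q6 ⊢
  have hNX : (N : ℝ) ≤ X := by rw [hN]; exact Nat.floor_le hX0.le
  have hAX : X / L < (A : ℝ) + 1 := by rw [hA]; exact Nat.lt_floor_add_one _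
  have hAh : h ≤ A := by
    have : (h : ℝ) < A + 1 := by linarith
    have : h < A + 1 := by exact_mod_cast this
    omega
  have hd0 : ∀ n, 0 ≤ dv s n := fun n => by unfold dv; exact Nat.cast_nonneg _
  have hW0 : ∀ n, n ≠ 0 → 0 ≤ Wn s ψ L n := fun n _ => IN3.Wn_nonneg hW.nonneg L n
  have ha0 : ∀ n, 0 ≤ Two.Apsi ψ X (-(h : ℤ)) n := fun n =>
    IG3.Apsi_nonneg hW.nonneg _ _ _
  have hb0 : ∀ n, 0 ≤ Two.Apsi ψ X (h : ℤ) n := fun n => IG3.Apsi_nonneg hW.nonneg _ _ _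
  have ha : ∀ n, n ≠ 0 → Wn s ψ L (n + h) = ((s : ℝ) + 1) * Two.Apsi ψ X (-(h : ℤ)) n := by
    intro n hn
    unfold Wn
    rw [hL]
    exact g1 s θ ψ hs hθ hθ1 hW X n (n + h) (-h) hX1 (by omega) (by push_cast; ring)
  have hb : ∀ n, n ≠ 0 → Wn s ψ L n = ((s : ℝ) + 1) * Two.Apsi ψ X (h : ℤ) (n + h) := by
    intro n hn
    unfold Wn
    rw [hL]
    exact g1 s θ ψ hs hθ hθ1 hW X (n + h) n h hX1 hn (by push_cast; ring)
  obtain ⟨y, hy⟩ : ∃ y : ℝ, y = X ^ (1 / 8 : ℝ) := ⟨_, rfl⟩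
  have hy1 : 1 ≤ y := by
    rw [hy]
    exact Real.one_le_rpow (by linarith) (by norm_num)
  have hyy : y * y = X ^ (1 / 4 : ℝ) := by
    rw [hy, ← Real.rpow_add hX0]
    norm_num
  have hdy : ∀ n : ℕ, n ≤ N + h → dv s n ≤ y := by
    intro n hn
    have hn' : (n : ℝ) ≤ 2 * X := by
      have : (n : ℝ) ≤ ((N + h : ℕ) : ℝ) := by exact_mod_cast hn
      push_cast at this
      linarith
    have h15 := h6 n hn'
    have e : (1 / 4 / 2 : ℝ) = 1 / 8 := by norm_num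
    rw [e, ← hy] at h15
    exact h15
  have hMy : y ≤ M * y := by nlinarith
  have hdMy : ∀ n : ℕ, n ≤ N + h → dv s n ≤ M * y := fun n hn => (hdy n hn).trans hMy
  have hWy : ∀ n, n ≠ 0 → n ≤ N + h → Wn s ψ L n ≤ M * y := by
    intro n hn hn'
    have h1 := IN3.Wn_le hB hB0 L n hn
    have h2 : ((s : ℝ) + 1) * B * dv s n ≤ (s + 1) * B * y :=
      mul_le_mul_of_nonneg_left (hdy n hn') (by positivity)
    have h3 : ((s : ℝ) + 1) * B * y ≤ M * y := by rw [hM]; nlinarith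
    linarith
  have hay : ∀ n ∈ Ioc A N, Two.Apsi ψ X (-(h : ℤ)) n ≤ M * y := by
    intro n hn
    rw [Finset.mem_Ioc] at hn
    have h1 := ha n (by omega)
    have h2 := hWy (n + h) (by omega) (by omega)
    have h3 := ha0 n
    nlinarith
  have hby : ∀ n ∈ Ioc A N, Two.Apsi ψ X (h : ℤ) n ≤ M * y := by
    intro n hn
    rw [Finset.mem_Ioc] at hn
    have h1 := hb (n - h) (by omega)
    rw [Nat.sub_add_cancel (by omega)] at h1
    have h2 := hWy (n - h) (by omega) (by omega)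
    have h3 := hb0 n
    nlinarith
  have hres := core ((s : ℝ) + 1) hr0.le A N h (dv s) (Wn s ψ L)
    (fun n => Two.Apsi ψ X (-(h : ℤ)) n) (fun n => Two.Apsi ψ X (h : ℤ) n)
    (M * y) hd0 hW0 ha0 hb0 ha hb hdMy hWy hay hby (by nlinarith)
  have hDS : DS s h A N = ∑ n ∈ Ioc A N, dv s n * dv s (n + h) := by
    unfold DS dv
    rfl
  rw [hDS]
  obtain ⟨Y, hY⟩ : ∃ Y : ℝ, Y = X * L ^ (2 * s) := ⟨_, rfl⟩
  rw [← hY] at q1 q2 q3 q4 q5 q6 ⊢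
  have hXY : X ≤ Y := by
    rw [hY]
    exact le_mul_of_one_le_right hX0.le (one_le_pow₀ hL1)
  have hneg : ∀ a g : ℕ → ℝ, ∑ n ∈ Ioc A N, a n * -g n = -∑ n ∈ Ioc A N, a n * g n := by
    intro a g
    rw [← Finset.sum_neg_distrib]
    refine Finset.sum_congr rfl fun n _ => ?_
    ring
  rw [hneg] at q2 q4 q6
  have hI : ((s : ℝ) + 1) * ∫ y in O1 s, ψ y = b := hb'.symm
  rw [hI] at q5 q6
  have hcomb := comb ((s : ℝ) + 1) (Csing s h) (∫ y in O1 s, ψ y) (1 / (s.factorial : ℝ)) b Y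
    _ _ _ δ' hr0.le hb' q1 q2 q3 q4 q5 q6
  have h3r : 3 * ((s : ℝ) + 1) * δ' * Y = δ / 2 * Y := by
    rw [hδ']
    field_simp
    ring
  rw [h3r] at hcomb
  have hKy : ((h : ℝ) + 3 * ((s : ℝ) + 1) * h) * (M * y * (M * y)) ≤ δ / 2 * Y := by
    have e : ((h : ℝ) + 3 * ((s : ℝ) + 1) * h) * (M * y * (M * y)) = K * X ^ (1 / 4 : ℝ) := by
      rw [hK, ← hyy]
      ring
    rw [e]
    exact h10.trans (mul_le_mul_of_nonneg_left hXY (by positivity))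
  have e2 : 2 * b / (s.factorial : ℝ) - b ^ 2 = 2 * b * (1 / (s.factorial : ℝ)) - b ^ 2 := by
    ring
  rw [e2]
  rw [abs_le] at hres hcomb ⊢
  constructor
  · linarith [hres.1, hcomb.1, hcomb.2]
  · linarith [hres.2, hcomb.1, hcomb.2]

end Pool.Agent.Work.MP_122e00_nt.Core
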