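import Pool.Agent.Work.MP_122e00_nt.Core.Stmts
import Pool.Agent.Work.MP_122e00_nt.Bd.B45

set_option autoImplicit false

/-!
# C8: the small integers and the last `h` integers
-/

namespace Pool.Agent.Work.MP_122e00_nt.Core

open Finset Filter Topology MeasureTheory

open scoped ArithmeticFunction.vonMangoldt ArithmeticFunction.zeta

open Two Gen

namespace IC8

theorem term_nonneg (s h n : ℕ) : 0 ≤ (((ζ : ArithmeticFunction ℕ) ^ (s + 1)) n : ℝ) *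
    (((ζ : ArithmeticFunction ℕ) ^ (s + 1)) (n + h) : ℝ) :=
  mul_nonneg (Nat.cast_nonneg _) (Nat.cast_nonneg _)

theorem DS_nonneg (s h a b : ℕ) : 0 ≤ DS s h a b :=
  Finset.sum_nonneg fun n _ => term_nonneg s h n

theorem DS_add (s h : ℕ) {a b : ℕ} (hab : a ≤ b) : DS s h 0 b = DS s h 0 a + DS s h a b := by
  unfold DS
  rw [Finset.sum_Ioc_consecutive _ (Nat.zero_le a) hab]

theorem mc_nonneg (s : ℕ) (X : ℝ) (n : ℕ) : 0 ≤ mc s X n := by
  unfold mc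
  exact Nat.cast_nonneg _

theorem mc_le (h3 : claimB3) (s : ℕ) (X : ℝ) (n : ℕ) (hn : n ≠ 0) :
    mc s X n ≤ (((ζ : ArithmeticFunction ℕ) ^ (s + 1)) n : ℝ) := by
  have h1 := h3.2 1 s n hn
  rw [← h1]
  unfold mc
  simp only [TS, Finset.sum_const, nsmul_eq_mul, mul_one]
  exact_mod_cast Finset.card_filter_le _ _

theorem f_le (h3 : claimB3) (s h : ℕ) (X : ℝ) (n : ℕ) (hn : n ≠ 0) :
    mc s X n * mc s X (n + h) ≤ (((ζ : ArithmeticFunction ℕ) ^ (s + 1)) n : ℝ) *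
      (((ζ : ArithmeticFunction ℕ) ^ (s + 1)) (n + h) : ℝ) :=
  mul_le_mul (mc_le h3 s X n hn) (mc_le h3 s X (n + h) (by omega)) (mc_nonneg _ _ _)
    (Nat.cast_nonneg _)

/-- `X / log X` tends to infinity -/
theorem tdiv : Tendsto (fun X : ℝ => X / Real.log X) atTop atTop := by
  have hlog : ∀ᶠ X : ℝ in atTop, 2 ≤ Real.log X := Real.tendsto_log_atTop.eventually_ge_atTop 2
  have h1 : Tendsto (fun X : ℝ => Real.log X / X) atTop (𝓝[>] 0) := by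
    rw [tendsto_nhdsWithin_iff]
    refine ⟨?_, ?_⟩
    · have := Real.isLittleO_log_id_atTop.tendsto_div_nhds_zero
      simpa using this
    · filter_upwards [hlog, eventually_gt_atTop 0] with X h1 h2
      exact div_pos (by linarith) h2
  have h2 := h1.inv_tendsto_nhdsGT_zero
  refine h2.congr fun X => ?_
  simp [inv_div]

/-- the small integers -/
theorem small (hF : claimFinal) (s h : ℕ) (hs : 1 ≤ s) (hh : h ≠ 0) {δ : ℝ} (hδ : 0 < δ) :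
    ∀ᶠ X : ℝ in atTop, DS s h 0 ⌊X / Real.log X⌋₊ ≤ δ * (X * (Real.log X) ^ (2 * s)) := by
  obtain ⟨C, hC⟩ := exists_gt (max 0 (Csing s h / (s.factorial : ℝ) ^ 2 * (((s : ℝ) + 1) ^ 2 / 2 ^ s *
      (2 * s / ((s : ℝ) + 1)) ^ (s * (s + 1)))))
  have hC0 : 0 < C := lt_of_le_of_lt (le_max_left _ _) hC
  have h1 := hF s h hs hh C (lt_of_le_of_lt (le_max_right _ _) hC)
  filter_upwards [tdiv.eventually h1, tdiv.eventually (eventually_ge_atTop (1 : ℝ)),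
    Real.tendsto_log_atTop.eventually_ge_atTop (1 : ℝ),
    Real.tendsto_log_atTop.eventually_ge_atTop (C / δ), eventually_gt_atTop (0 : ℝ)]
    with X a1 a2 a3 a4 a5
  have hXlog : X / Real.log X ≤ X := div_le_self a5.le a3
  have hl : Real.log (X / Real.log X) ≤ Real.log X := Real.log_le_log (by linarith) hXlog
  have hl0 : 0 ≤ Real.log (X / Real.log X) := Real.log_nonneg a2
  have hLpos : 0 < Real.log X := by linarith
  calc DS s h 0 ⌊X / Real.log X⌋₊ ≤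
        C * (X / Real.log X * (Real.log (X / Real.log X)) ^ (2 * s)) := a1
    _ ≤ C * (X / Real.log X * (Real.log X) ^ (2 * s)) := by
        apply mul_le_mul_of_nonneg_left _ hC0.le
        apply mul_le_mul_of_nonneg_left (pow_le_pow_left₀ hl0 hl (2 * s)) (by linarith)
    _ = (C / Real.log X) * (X * (Real.log X) ^ (2 * s)) := by
        field_simp
    _ ≤ δ * (X * (Real.log X) ^ (2 * s)) := by
        apply mul_le_mul_of_nonneg_right _ (by positivity)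
        rw [div_le_iff₀ hδ] at a4
        rw [div_le_iff₀ hLpos]
        linarith

/-- the last `h` integers -/
theorem last (s h : ℕ) {δ : ℝ} (hδ : 0 < δ) : ∀ᶠ X : ℝ in atTop,
    ∑ n ∈ Finset.Ioc (⌊X⌋₊ - h) ⌊X⌋₊, (((ζ : ArithmeticFunction ℕ) ^ (s + 1)) n : ℝ) *
      (((ζ : ArithmeticFunction ℕ) ^ (s + 1)) (n + h) : ℝ) ≤ δ * (X * (Real.log X) ^ (2 * s)) := by
  have e6 := Two.IU9.zeta_pow_le s (δ := 1 / 4) (by norm_num)
  have e7 : ∀ᶠ X : ℝ in atTop, (h : ℝ) / δ ≤ X ^ (3 / 4 : ℝ) :=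
    (tendsto_rpow_atTop (by norm_num)).eventually_ge_atTop _
  filter_upwards [e6, e7, Real.tendsto_log_atTop.eventually_ge_atTop (1 : ℝ),
    eventually_gt_atTop (0 : ℝ), eventually_ge_atTop (h : ℝ)] with X a1 a2 a3 a4 a5
  have hN : (⌊X⌋₊ : ℝ) ≤ X := Nat.floor_le a4.le
  have hterm : ∀ n ∈ Finset.Ioc (⌊X⌋₊ - h) ⌊X⌋₊,
      (((ζ : ArithmeticFunction ℕ) ^ (s + 1)) n : ℝ) *
      (((ζ : ArithmeticFunction ℕ) ^ (s + 1)) (n + h) : ℝ) ≤ X ^ (1 / 4 : ℝ) := by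
    intro n hn
    rw [Finset.mem_Ioc] at hn
    have hn' : (n : ℝ) ≤ X := le_trans (by exact_mod_cast hn.2) hN
    have b1 := a1 n (by linarith)
    have b2 := a1 (n + h) (by push_cast; linarith)
    calc _ ≤ X ^ ((1 / 4 : ℝ) / 2) * X ^ ((1 / 4 : ℝ) / 2) :=
          mul_le_mul b1 b2 (Nat.cast_nonneg _) (by positivity)
      _ = X ^ (1 / 4 : ℝ) := by
          rw [← Real.rpow_add a4]
          norm_num
  have hp : (1 : ℝ) ≤ (Real.log X) ^ (2 * s) := one_le_pow₀ a3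
  have hcard : ((Finset.Ioc (⌊X⌋₊ - h) ⌊X⌋₊).card : ℝ) ≤ h := by
    rw [Nat.card_Ioc]
    exact_mod_cast (by omega : ⌊X⌋₊ - (⌊X⌋₊ - h) ≤ h)
  have hpos : 0 ≤ X ^ (1 / 4 : ℝ) := by positivity
  calc _ ≤ ∑ _n ∈ Finset.Ioc (⌊X⌋₊ - h) ⌊X⌋₊, X ^ (1 / 4 : ℝ) := Finset.sum_le_sum hterm
    _ = ((Finset.Ioc (⌊X⌋₊ - h) ⌊X⌋₊).card : ℝ) * X ^ (1 / 4 : ℝ) := by
        rw [Finset.sum_const, nsmul_eq_mul]
    _ ≤ h * X ^ (1 / 4 : ℝ) := mul_le_mul_of_nonneg_right hcard hpos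
    _ ≤ (δ * X ^ (3 / 4 : ℝ)) * X ^ (1 / 4 : ℝ) := by
        apply mul_le_mul_of_nonneg_right _ hpos
        rw [div_le_iff₀ hδ] at a2
        linarith
    _ = δ * X := by
        rw [mul_assoc, ← Real.rpow_add a4]
        norm_num
    _ = δ * (X * 1) := by ring
    _ ≤ δ * (X * (Real.log X) ^ (2 * s)) := by
        apply mul_le_mul_of_nonneg_left _ hδ.le
        exact mul_le_mul_of_nonneg_left hp a4.le

end IC8

open IC8 in
theorem prC8 (h3 : claimB3) (hF : claimFinal) : claimC8 := by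
  intro s h δ hs hh hδ
  filter_upwards [small hF s h hs hh (half_pos hδ), last s h (half_pos hδ),
    Real.tendsto_log_atTop.eventually_ge_atTop (1 : ℝ), eventually_gt_atTop (0 : ℝ)]
    with X a1 a2 a3 a4
  have hAN : ⌊X / Real.log X⌋₊ ≤ ⌊X⌋₊ := Nat.floor_le_floor (div_le_self a4.le a3)
  have hY : 0 ≤ X * (Real.log X) ^ (2 * s) := by positivity
  have e1 := DS_add s h hAN
  have e2 := DS_nonneg s h 0 ⌊X / Real.log X⌋₊
  have hδY : 0 ≤ δ / 2 * (X * (Real.log X) ^ (2 * s)) := by positivity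
  have hsub : Finset.Ioc ⌊X / Real.log X⌋₊ (⌊X⌋₊ - h) ⊆ Finset.Icc 1 ⌊X⌋₊ := by
    intro n hn
    rw [Finset.mem_Ioc] at hn
    rw [Finset.mem_Icc]
    omega
  have e3 := Finset.sum_sdiff (f := fun n => mc s X n * mc s X (n + h)) hsub
  have e4 : 0 ≤ ∑ n ∈ Finset.Icc 1 ⌊X⌋₊ \ Finset.Ioc ⌊X / Real.log X⌋₊ (⌊X⌋₊ - h),
      mc s X n * mc s X (n + h) :=
    Finset.sum_nonneg fun n _ => mul_nonneg (mc_nonneg _ _ _) (mc_nonneg _ _ _)
  have e5 : ∑ n ∈ Finset.Icc 1 ⌊X⌋₊ \ Finset.Ioc ⌊X / Real.log X⌋₊ (⌊X⌋₊ - h),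
      mc s X n * mc s X (n + h) ≤ DS s h 0 ⌊X / Real.log X⌋₊ +
      ∑ n ∈ Finset.Ioc (⌊X⌋₊ - h) ⌊X⌋₊, (((ζ : ArithmeticFunction ℕ) ^ (s + 1)) n : ℝ) *
      (((ζ : ArithmeticFunction ℕ) ^ (s + 1)) (n + h) : ℝ) := by
    have c1 : Finset.Icc 1 ⌊X⌋₊ \ Finset.Ioc ⌊X / Real.log X⌋₊ (⌊X⌋₊ - h) ⊆
        Finset.Ioc 0 ⌊X / Real.log X⌋₊ ∪ Finset.Ioc (⌊X⌋₊ - h) ⌊X⌋₊ := by
      intro n hn
      rw [Finset.mem_sdiff, Finset.mem_Icc, Finset.mem_Ioc] at hn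
      rw [Finset.mem_union, Finset.mem_Ioc, Finset.mem_Ioc]
      omega
    calc _ ≤ ∑ n ∈ Finset.Icc 1 ⌊X⌋₊ \ Finset.Ioc ⌊X / Real.log X⌋₊ (⌊X⌋₊ - h),
          (((ζ : ArithmeticFunction ℕ) ^ (s + 1)) n : ℝ) *
          (((ζ : ArithmeticFunction ℕ) ^ (s + 1)) (n + h) : ℝ) := by
          refine Finset.sum_le_sum fun n hn => f_le h3 s h X n ?_
          rw [Finset.mem_sdiff, Finset.mem_Icc] at hn
          omega
      _ ≤ ∑ n ∈ Finset.Ioc 0 ⌊X / Real.log X⌋₊ ∪ Finset.Ioc (⌊X⌋₊ - h) ⌊X⌋₊,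
          (((ζ : ArithmeticFunction ℕ) ^ (s + 1)) n : ℝ) *
          (((ζ : ArithmeticFunction ℕ) ^ (s + 1)) (n + h) : ℝ) :=
          Finset.sum_le_sum_of_subset_of_nonneg c1 fun n _ _ => term_nonneg s h n
      _ ≤ _ := by
          have c2 := Finset.sum_union_inter (s₁ := Finset.Ioc 0 ⌊X / Real.log X⌋₊)
            (s₂ := Finset.Ioc (⌊X⌋₊ - h) ⌊X⌋₊)
            (f := fun n => (((ζ : ArithmeticFunction ℕ) ^ (s + 1)) n : ℝ) *
              (((ζ : ArithmeticFunction ℕ) ^ (s + 1)) (n + h) : ℝ))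
          have c3 : 0 ≤ ∑ n ∈ Finset.Ioc 0 ⌊X / Real.log X⌋₊ ∩ Finset.Ioc (⌊X⌋₊ - h) ⌊X⌋₊,
              (((ζ : ArithmeticFunction ℕ) ^ (s + 1)) n : ℝ) *
              (((ζ : ArithmeticFunction ℕ) ^ (s + 1)) (n + h) : ℝ) :=
            Finset.sum_nonneg fun n _ => term_nonneg s h n
          unfold DS
          linarith
  refine ⟨⟨by linarith, by linarith⟩, by linarith, by linarith⟩

end Pool.Agent.Work.MP_122e00_nt.Core
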