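import Pool.Agent.Work.MP_122e00_nt.Core.Stmts

set_option autoImplicit false

/-!
# Item C9: the exact reduction to the core
-/

namespace Pool.Agent.Work.MP_122e00_nt.Core

open Finset Filter Topology MeasureTheory

open Two Gen

namespace IC9

theorem ps_nonneg (s : ℕ) (θ : ℝ) (y : Fin s → ℝ) : 0 ≤ ps s θ y := by
  unfold ps
  exact Set.indicator_nonneg (fun _ _ => zero_le_one) y

theorem Wn_nonneg (s : ℕ) (θ L : ℝ) (n : ℕ) : 0 ≤ Wn s (ps s θ) L n := by
  unfold Wn TS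
  refine Finset.sum_nonneg fun v _ => ?_
  unfold gs
  exact Finset.sum_nonneg fun i _ => ps_nonneg s θ _

theorem mc_nonneg (s : ℕ) (X : ℝ) (n : ℕ) : 0 ≤ mc s X n := by
  unfold mc
  exact Nat.cast_nonneg _

theorem limit (s h : ℕ) :
    Tendsto (fun θ : ℝ => Csing s h * ((2 * ((s + 1) * ((1 / 2 - θ) ^ s / (s.factorial : ℝ))) /
        (s.factorial : ℝ) - ((s + 1) * ((1 / 2 - θ) ^ s / (s.factorial : ℝ))) ^ 2)) -
      Csing s h / (s.factorial : ℝ) ^ 2 * (1 - (1 - ((s : ℝ) + 1) / 2 ^ s) ^ 2)) (𝓝 0) (𝓝 0) := by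
  have hf : (s.factorial : ℝ) ≠ 0 := Nat.cast_ne_zero.2 (Nat.factorial_ne_zero s)
  have h2 : (2 : ℝ) ^ s ≠ 0 := by positivity
  have h0 : Csing s h * ((2 * ((s + 1) * ((1 / 2 - (0 : ℝ)) ^ s / (s.factorial : ℝ))) /
        (s.factorial : ℝ) - ((s + 1) * ((1 / 2 - (0 : ℝ)) ^ s / (s.factorial : ℝ))) ^ 2)) -
      Csing s h / (s.factorial : ℝ) ^ 2 * (1 - (1 - ((s : ℝ) + 1) / 2 ^ s) ^ 2) = 0 := by
    rw [sub_zero, div_pow, one_pow]
    field_simp
    ring
  have hc : Continuous (fun θ : ℝ => Csing s h *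
      ((2 * ((s + 1) * ((1 / 2 - θ) ^ s / (s.factorial : ℝ))) /
        (s.factorial : ℝ) - ((s + 1) * ((1 / 2 - θ) ^ s / (s.factorial : ℝ))) ^ 2)) -
      Csing s h / (s.factorial : ℝ) ^ 2 * (1 - (1 - ((s : ℝ) + 1) / 2 ^ s) ^ 2)) := by
    fun_prop
  have := hc.tendsto (0 : ℝ)
  rw [h0] at this
  exact this

end IC9

theorem prC9 (h10 : claimB10) (c1 : claimC1) (c6 : claimC6) (c7 : claimC7) (c8 : claimC8) :
    claimC9 := by
  intro s h ε hs hh hε
  obtain ⟨θ₁, hθ₁, H6⟩ := c6 s h (ε / 5) hs hh (by positivity)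
  have hlim := (IC9.limit s h).mono_left (nhdsWithin_le_nhds (s := Set.Ioi (0 : ℝ)))
  have e1 : ∀ᶠ θ : ℝ in 𝓝[>] 0, |Csing s h *
      ((2 * ((s + 1) * ((1 / 2 - θ) ^ s / (s.factorial : ℝ))) /
        (s.factorial : ℝ) - ((s + 1) * ((1 / 2 - θ) ^ s / (s.factorial : ℝ))) ^ 2)) -
      Csing s h / (s.factorial : ℝ) ^ 2 * (1 - (1 - ((s : ℝ) + 1) / 2 ^ s) ^ 2)| < ε / 5 := by
    have := (Metric.tendsto_nhds.1 hlim) (ε / 5) (by positivity)
    filter_upwards [this] with θ hθ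
    rwa [Real.dist_eq, sub_zero] at hθ
  have e2 : ∀ᶠ θ : ℝ in 𝓝[>] 0, θ ∈ Set.Ioo (0 : ℝ) (min θ₁ (1 / 4)) :=
    Ioo_mem_nhdsGT (lt_min hθ₁ (by norm_num))
  obtain ⟨θ, hθd, hθ0, hθm⟩ := (e1.and e2).exists
  have hθ1 : θ ≤ θ₁ := (hθm.le.trans (min_le_left _ _))
  have hθ4 : θ < 1 / 4 := hθm.trans_le (min_le_right _ _)
  obtain ⟨hWt, hint⟩ := h10 s θ hs hθ0 (by linarith)
  have H7 := c7 s h θ _ (ε / 5) (ps s θ) hs hh hθ0 (by linarith) hWt rfl (by positivity)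
  rw [hint] at H7
  filter_upwards [c1 s θ hs hθ0 hθ4, H6 θ hθ0 hθ1, H7, c8 s h (ε / 5) hs hh (by positivity),
    eventually_gt_atTop (1 : ℝ)] with X k1 k6 k7 k8 hX
  obtain ⟨⟨k8a, k8b⟩, k8c, k8d⟩ := k8
  have hlog : 0 < Real.log X := Real.log_pos hX
  have hY : 0 ≤ X * (Real.log X) ^ (2 * s) := by positivity
  -- the comparison on `J`
  have key : 0 ≤ ∑ n ∈ Finset.Ioc ⌊X / Real.log X⌋₊ (⌊X⌋₊ - h),
        (dv s n - Wn s (ps s θ) (Real.log X) n) *
          (dv s (n + h) - Wn s (ps s θ) (Real.log X) (n + h)) -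
      ∑ n ∈ Finset.Ioc ⌊X / Real.log X⌋₊ (⌊X⌋₊ - h), mc s X n * mc s X (n + h) ∧
      ∑ n ∈ Finset.Ioc ⌊X / Real.log X⌋₊ (⌊X⌋₊ - h),
        (dv s n - Wn s (ps s θ) (Real.log X) n) *
          (dv s (n + h) - Wn s (ps s θ) (Real.log X) (n + h)) -
      ∑ n ∈ Finset.Ioc ⌊X / Real.log X⌋₊ (⌊X⌋₊ - h), mc s X n * mc s X (n + h) ≤
      ∑ n ∈ Finset.Ioc ⌊X / Real.log X⌋₊ (⌊X⌋₊ - h),
        (Tg s (tw s θ) (Real.log X) n * dv s (n + h) +
          dv s n * Tg s (tw s θ) (Real.log X) (n + h)) := by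
    rw [← Finset.sum_sub_distrib]
    have hterm : ∀ n ∈ Finset.Ioc ⌊X / Real.log X⌋₊ (⌊X⌋₊ - h),
        0 ≤ (dv s n - Wn s (ps s θ) (Real.log X) n) *
          (dv s (n + h) - Wn s (ps s θ) (Real.log X) (n + h)) - mc s X n * mc s X (n + h) ∧
        (dv s n - Wn s (ps s θ) (Real.log X) n) *
          (dv s (n + h) - Wn s (ps s θ) (Real.log X) (n + h)) - mc s X n * mc s X (n + h) ≤
        Tg s (tw s θ) (Real.log X) n * dv s (n + h) +
          dv s n * Tg s (tw s θ) (Real.log X) (n + h) := by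
      intro n hn
      rw [Finset.mem_Ioc] at hn
      have hn1 : X / Real.log X < (n : ℝ) := Nat.lt_of_floor_lt hn.1
      have hnh : n + h ≤ ⌊X⌋₊ := by omega
      have hn3 : ((n + h : ℕ) : ℝ) ≤ X := (Nat.le_floor_iff (by linarith)).1 hnh
      have hn2 : (n : ℝ) ≤ X := by
        refine le_trans ?_ hn3
        push_cast
        linarith [Nat.cast_nonneg (α := ℝ) h]
      have hn4 : X / Real.log X ≤ ((n + h : ℕ) : ℝ) := by
        refine hn1.le.trans ?_
        push_cast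
        linarith [Nat.cast_nonneg (α := ℝ) h]
      obtain ⟨a1, a2⟩ := k1 n hn1.le hn2
      obtain ⟨b1, b2⟩ := k1 (n + h) hn4 hn3
      have m1 := IC9.mc_nonneg s X n
      have m2 := IC9.mc_nonneg s X (n + h)
      have w1 := IC9.Wn_nonneg s θ (Real.log X) n
      have w2 := IC9.Wn_nonneg s θ (Real.log X) (n + h)
      generalize mc s X n = m at *
      generalize mc s X (n + h) = m' at *
      generalize Wn s (ps s θ) (Real.log X) n = w at *
      generalize Wn s (ps s θ) (Real.log X) (n + h) = w' at *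
      generalize Tg s (tw s θ) (Real.log X) n = t at *
      generalize Tg s (tw s θ) (Real.log X) (n + h) = t' at *
      generalize dv s n = d at *
      generalize dv s (n + h) = d' at *
      have hid : (d - w) * (d' - w') - m * m' = (d - m - w) * (d' - w') + m * (d' - m' - w') := by
        ring
      rw [hid]
      have hu' : 0 ≤ d' - w' := by linarith
      have hd' : 0 ≤ d' := by linarith
      have ht : 0 ≤ t := by linarith
      have ht' : 0 ≤ t' := by linarith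
      refine ⟨add_nonneg (mul_nonneg a1 hu') (mul_nonneg m1 b1), add_le_add ?_ ?_⟩
      · exact mul_le_mul a2 (by linarith) hu' ht
      · exact mul_le_mul (by linarith) b2 b1 (by linarith)
    refine ⟨Finset.sum_nonneg fun n hn => (hterm n hn).1,
      Finset.sum_le_sum fun n hn => (hterm n hn).2⟩
  obtain ⟨key1, key2⟩ := key
  have hθd' := abs_le.1 hθd.le
  have q1 := mul_le_mul_of_nonneg_right hθd'.1 hY
  have q2 := mul_le_mul_of_nonneg_right hθd'.2 hY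
  obtain ⟨k7a, k7b⟩ := abs_le.1 k7
  generalize X * (Real.log X) ^ (2 * s) = Y at *
  rw [abs_le]
  constructor
  · nlinarith [key1, key2, k6, k7a, k7b, k8a, k8b, k8c, k8d, q1, q2]
  · nlinarith [key1, key2, k6, k7a, k7b, k8a, k8b, k8c, k8d, q1, q2]

end Pool.Agent.Work.MP_122e00_nt.Core
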