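import Pool.Agent.Work.MP_122e00_nt.Gen.Main
import Pool.Agent.Work.MP_122e00_nt.Gen.ItemN0
import Pool.Agent.Work.MP_122e00_nt.Bd.B40
import Pool.Agent.Work.MP_122e00_nt.Bd.B53
import Pool.Agent.Work.MP_122e00_nt.Two.ItemT8
import Pool.Agent.Work.MP_122e00_nt.Core.I_C1
import Pool.Agent.Work.MP_122e00_nt.Core.I_C2
import Pool.Agent.Work.MP_122e00_nt.Core.I_C3
import Pool.Agent.Work.MP_122e00_nt.Core.I_C4
import Pool.Agent.Work.MP_122e00_nt.Core.I_C5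
import Pool.Agent.Work.MP_122e00_nt.Core.I_C6
import Pool.Agent.Work.MP_122e00_nt.Core.I_C7
import Pool.Agent.Work.MP_122e00_nt.Core.I_C8
import Pool.Agent.Work.MP_122e00_nt.Core.I_C9
import Pool.Agent.Work.MP_122e00_nt.Core.I_C10

set_option autoImplicit false

/-!
# Exact reduction of the shifted divisor sum to the core: assembly
-/

namespace Pool.Agent.Work.MP_122e00_nt.Core

theorem mC1 : claimC1 := prC1 Gen.prfB3

theorem mC2 : claimC2 := prC2 Gen.prfG2 Gen.mB2 Gen.prfB3 Gen.prfB4 Gen.mB5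

theorem mC3 : claimC3 := prC3 Gen.mM3

theorem mC4 : claimC4 := prC4 Gen.mB9 Two.prfT8 Two.prfL6

theorem mC5 : claimC5 := prC5 Gen.prfG1

theorem mC6 : claimC6 := prC6 Gen.prfB3 Gen.mB9 Gen.prfB10 mC2 mC3 mC4 mC5

theorem mC7 : claimC7 := prC7 Gen.prfG1 Gen.prfN1 (Gen.prfN2 Gen.prfN0)

theorem mC8 : claimC8 := prC8 Gen.prfB3 Gen.mFinal

theorem mC9 : claimC9 := prC9 Gen.prfB10 mC1 mC6 mC7 mC8

end Pool.Agent.Work.MP_122e00_nt.Core
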