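import Pool.Agent.Work.MP_122e00_nt.Core.Stmts
import Pool.Agent.Work.MP_122e00_nt.Bd.B48

set_option autoImplicit false

/-!
# Block CO, item C5 (helper56): the bilinear inequality
-/

namespace Pool.Agent.Work.MP_122e00_nt.Core

open Finset Filter Topology MeasureTheory

open scoped ArithmeticFunction.vonMangoldt ArithmeticFunction.zeta

open Two Gen

namespace IC5

/-- The summation, for abstract functions. -/
theorem core (r lam : ℝ) (hr : 0 ≤ r) (hlam : 0 < lam) (A N h : ℕ) (T T' W a b H H' : ℕ → ℝ)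
    (x y : ℝ) (hW0 : ∀ n, n ≠ 0 → 0 ≤ W n) (ha0 : ∀ n, 0 ≤ a n) (hb0 : ∀ n, 0 ≤ b n)
    (ha : ∀ n, n ≠ 0 → W (n + h) = r * a n) (hb : ∀ n, n ≠ 0 → W n = r * b (n + h))
    (hH : ∀ n ∈ Ioc A N, 0 ≤ H n) (hH' : ∀ n ∈ Ioc A N, 0 ≤ H' n)
    (hT : ∀ n ∈ Ioc A N, |T n| ≤ y) (hT' : ∀ n ∈ Ioc A N, |T' n| ≤ y)
    (hy : 0 ≤ y) (hx0 : 0 ≤ x) (hx1 : x ≤ 1)
    (hd : ∀ n ∈ Ioc A N, ∃ l, |l| ≤ x ∧ (T n - l) ^ 2 ≤ H n * W n)
    (hd' : ∀ n ∈ Ioc A N, ∃ l, |l| ≤ x ∧ (T' n - l) ^ 2 ≤ H' n * W n) :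
    ∑ n ∈ Ioc A (N - h), (|T n| * |T' (n + h)| + |T' n| * |T (n + h)|) ≤
      r / 2 * ((∑ n ∈ Ioc A N, a n * H n + ∑ n ∈ Ioc A N, b n * H n) / lam +
        lam * (∑ n ∈ Ioc A N, a n * H' n + ∑ n ∈ Ioc A N, b n * H' n)) +
      N * (2 * (2 * (x * y) + x)) := by
  obtain ⟨J, hJ⟩ : ∃ J : Finset ℕ, J = Ioc A (N - h) := ⟨_, rfl⟩
  obtain ⟨J', hJ'⟩ : ∃ J' : Finset ℕ, J' = J.map (addRightEmbedding h) := ⟨_, rfl⟩
  obtain ⟨S, hS⟩ : ∃ S : Finset ℕ, S = Ioc A N := ⟨_, rfl⟩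
  rw [← hS] at hH hH' hT hT' hd hd' ⊢
  rw [← hJ]
  have hJS : J ⊆ S := by
    intro n hn
    rw [hJ, Finset.mem_Ioc] at hn
    rw [hS, Finset.mem_Ioc]
    omega
  have hJS' : J' ⊆ S := by
    intro m hm
    rw [hJ', Finset.mem_map] at hm
    obtain ⟨n, hn, rfl⟩ := hm
    rw [hJ, Finset.mem_Ioc] at hn
    rw [hS, Finset.mem_Ioc]
    simp only [addRightEmbedding_apply]
    omega
  have hSn : ∀ n ∈ S, n ≠ 0 := by
    intro n hn
    rw [hS, Finset.mem_Ioc] at hn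
    omega
  have hmap : ∀ g : ℕ → ℝ, ∑ m ∈ J', g m = ∑ n ∈ J, g (n + h) := by
    intro g
    rw [hJ', Finset.sum_map]
    rfl
  have hterm : ∀ n ∈ J, |T n| * |T' (n + h)| + |T' n| * |T (n + h)| ≤
      (r / 2 / lam) * (a n * H n) + (r / 2 / lam) * (b (n + h) * H (n + h)) +
        ((r / 2 * lam) * (a n * H' n) + (r / 2 * lam) * (b (n + h) * H' (n + h))) +
        2 * (2 * (x * y) + x) := by
    intro n hn
    have hnS := hJS hn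
    have hnS' : n + h ∈ S := hJS' (by
      rw [hJ', Finset.mem_map]
      exact ⟨n, hn, rfl⟩)
    have hn0 := hSn n hnS
    have hn0' := hSn _ hnS'
    obtain ⟨l1, hl1, hb1⟩ := hd n hnS
    obtain ⟨l2, hl2, hb2⟩ := hd (n + h) hnS'
    obtain ⟨l3, hl3, hb3⟩ := hd' n hnS
    obtain ⟨l4, hl4, hb4⟩ := hd' (n + h) hnS'
    have k1 := IN3.key (T n) (T' (n + h)) (lam * W n) (W (n + h)) (H n / lam) (H' (n + h))
      l1 l4 x y (mul_nonneg hlam.le (hW0 _ hn0)) (hW0 _ hn0') (div_nonneg (hH _ hnS) hlam.le)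
      (hH' _ hnS') hx0 hx1 hl1 hl4 (hT _ hnS) (hT' _ hnS') (hb1.trans (le_of_eq (by
        field_simp))) hb4
    have k2 := IN3.key (T' n) (T (n + h)) (W n / lam) (W (n + h)) (lam * H' n) (H (n + h))
      l3 l2 x y (div_nonneg (hW0 _ hn0) hlam.le) (hW0 _ hn0') (mul_nonneg hlam.le (hH' _ hnS))
      (hH _ hnS') hx0 hx1 hl3 hl2 (hT' _ hnS) (hT _ hnS') (hb3.trans (le_of_eq (by
        field_simp))) hb2
    rw [abs_mul] at k1 k2
    refine (add_le_add k1 k2).trans (le_of_eq ?_)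
    rw [ha n hn0, hb n hn0]
    field_simp
    ring
  refine (Finset.sum_le_sum hterm).trans ?_
  rw [Finset.sum_add_distrib, Finset.sum_add_distrib, Finset.sum_add_distrib,
    Finset.sum_add_distrib, ← Finset.mul_sum, ← Finset.mul_sum, ← Finset.mul_sum,
    ← Finset.mul_sum, Finset.sum_const, nsmul_eq_mul]
  have hcard : (J.card : ℝ) * (2 * (2 * (x * y) + x)) ≤ N * (2 * (2 * (x * y) + x)) := by
    apply mul_le_mul_of_nonneg_right _ (by positivity)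
    have : J.card ≤ N := by rw [hJ, Nat.card_Ioc]; omega
    exact_mod_cast this
  have hA : ∀ G : ℕ → ℝ, (∀ n ∈ S, 0 ≤ G n) → ∑ n ∈ J, a n * G n ≤ ∑ n ∈ S, a n * G n :=
    fun G hG => Finset.sum_le_sum_of_subset_of_nonneg hJS
      (fun n hn _ => mul_nonneg (ha0 _) (hG n hn))
  have hB : ∀ G : ℕ → ℝ, (∀ n ∈ S, 0 ≤ G n) →
      ∑ n ∈ J, b (n + h) * G (n + h) ≤ ∑ n ∈ S, b n * G n := by
    intro G hG
    rw [← hmap (fun m => b m * G m)]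
    exact Finset.sum_le_sum_of_subset_of_nonneg hJS'
      (fun n hn _ => mul_nonneg (hb0 _) (hG n hn))
  have q1 : 0 ≤ r / 2 / lam := by positivity
  have q2 : 0 ≤ r / 2 * lam := by positivity
  have e1 := mul_le_mul_of_nonneg_left (hA H hH) q1
  have e2 := mul_le_mul_of_nonneg_left (hB H hH) q1
  have e3 := mul_le_mul_of_nonneg_left (hA H' hH') q2
  have e4 := mul_le_mul_of_nonneg_left (hB H' hH') q2
  have e5 : r / 2 * ((∑ n ∈ S, a n * H n + ∑ n ∈ S, b n * H n) / lam +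
      lam * (∑ n ∈ S, a n * H' n + ∑ n ∈ S, b n * H' n)) =
      r / 2 / lam * ∑ n ∈ S, a n * H n + r / 2 / lam * ∑ n ∈ S, b n * H n +
      (r / 2 * lam * ∑ n ∈ S, a n * H' n + r / 2 * lam * ∑ n ∈ S, b n * H' n) := by
    field_simp
  rw [e5]
  linarith

end IC5

theorem prC5 (g1 : Gen.claimG1) : claimC5 := by
  intro s h θ B I I' lam ψ T T' H H' hs hh hθ hθ1 hW hB1 hlam hD hD' hTT hM hM' δ hδ
  have hs0 : (0 : ℝ) ≤ s := Nat.cast_nonneg _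
  have hB0 : 0 < B := by linarith
  obtain ⟨δ', hδ'⟩ : ∃ δ' : ℝ, δ' = δ / (2 * (((s : ℝ) + 1) * (1 / lam + lam))) := ⟨_, rfl⟩
  have hq : 0 < ((s : ℝ) + 1) * (1 / lam + lam) := by positivity
  have hδ'0 : 0 < δ' := by rw [hδ']; positivity
  have hδ'1 : ((s : ℝ) + 1) * (1 / lam + lam) * δ' = δ / 2 := by
    rw [hδ']
    field_simp
  have e6 := Two.IU9.zeta_pow_le s (δ := 1 / 4) (by norm_num)
  have e9 := Real.tendsto_log_atTop.eventually (eventually_ge_atTop (1 : ℝ))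
  have e10 : ∀ᶠ X : ℝ in atTop, 6 * B ^ 2 * X ^ (1 / 8 : ℝ) ≤ δ / 2 * X := by
    have h1 : ∀ᶠ X : ℝ in atTop, 12 * B ^ 2 / δ ≤ X ^ (7 / 8 : ℝ) :=
      (tendsto_rpow_atTop (by norm_num)).eventually_ge_atTop _
    filter_upwards [h1, eventually_gt_atTop (0 : ℝ)] with X hX hX0
    have h2 : X = X ^ (7 / 8 : ℝ) * X ^ (1 / 8 : ℝ) := by
      rw [← Real.rpow_add hX0]
      norm_num
    rw [div_le_iff₀ hδ] at hX
    have h3 : 0 ≤ X ^ (1 / 8 : ℝ) := by positivity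
    calc 6 * B ^ 2 * X ^ (1 / 8 : ℝ) = (12 * B ^ 2) / 2 * X ^ (1 / 8 : ℝ) := by ring
      _ ≤ (X ^ (7 / 8 : ℝ) * δ) / 2 * X ^ (1 / 8 : ℝ) :=
        mul_le_mul_of_nonneg_right (by linarith) h3
      _ = δ / 2 * (X ^ (7 / 8 : ℝ) * X ^ (1 / 8 : ℝ)) := by ring
      _ = δ / 2 * X := by rw [← h2]
  have e1 := hM δ' hδ'0
  have e2 := hM' δ' hδ'0
  filter_upwards [hD, hD', hTT, e1, e2, e6, e9, e10, eventually_ge_atTop (2 : ℝ),
    eventually_ge_atTop B] with X h1 h2 h3 h4 h5 h6 h9 h10 hX2 hXB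
  have hX0 : 0 < X := by linarith
  have hX1 : 1 < X := by linarith
  have hm1 := h4 (-(h : ℤ)) (by simp)
  have hm2 := h4 (h : ℤ) (by simp)
  have hm3 := h5 (-(h : ℤ)) (by simp)
  have hm4 := h5 (h : ℤ) (by simp)
  obtain ⟨L, hL⟩ : ∃ L : ℝ, L = Real.log X := ⟨_, rfl⟩
  have hL1 : 1 ≤ L := by rw [hL]; exact h9
  rw [← hL] at h1 h2 h3 hm1 hm2 hm3 hm4 ⊢
  obtain ⟨N, hN⟩ : ∃ N : ℕ, N = ⌊X⌋₊ := ⟨_, rfl⟩
  obtain ⟨A, hA⟩ : ∃ A : ℕ, A = ⌊X / L⌋₊ := ⟨_, rfl⟩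
  rw [← hN, ← hA] at hm1 hm2 hm3 hm4 ⊢
  have hNX : (N : ℝ) ≤ X := by rw [hN]; exact Nat.floor_le hX0.le
  have hAX : X / L < (A : ℝ) + 1 := by rw [hA]; exact Nat.lt_floor_add_one _
  have hW0 : ∀ n, n ≠ 0 → 0 ≤ Wn s ψ L n := fun n _ => IN3.Wn_nonneg hW.nonneg L n
  have ha0 : ∀ n, 0 ≤ Two.Apsi ψ X (-(h : ℤ)) n := fun n =>
    IG3.Apsi_nonneg hW.nonneg _ _ _
  have hb0 : ∀ n, 0 ≤ Two.Apsi ψ X (h : ℤ) n := fun n => IG3.Apsi_nonneg hW.nonneg _ _ _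
  have ha : ∀ n, n ≠ 0 → Wn s ψ L (n + h) = ((s : ℝ) + 1) * Two.Apsi ψ X (-(h : ℤ)) n := by
    intro n hn
    unfold Wn
    rw [hL]
    exact g1 s θ ψ hs hθ hθ1 hW X n (n + h) (-h) hX1 (by omega) (by push_cast; ring)
  have hb : ∀ n, n ≠ 0 → Wn s ψ L n = ((s : ℝ) + 1) * Two.Apsi ψ X (h : ℤ) (n + h) := by
    intro n hn
    unfold Wn
    rw [hL]
    exact g1 s θ ψ hs hθ hθ1 hW X (n + h) n h hX1 hn (by push_cast; ring)
  have hrange : ∀ n ∈ Ioc A N, X / L ≤ (n : ℝ) ∧ (n : ℝ) ≤ X := by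
    intro n hn
    rw [Finset.mem_Ioc] at hn
    have h11 : (A : ℝ) + 1 ≤ n := by exact_mod_cast hn.1
    have h12 : (n : ℝ) ≤ N := by exact_mod_cast hn.2
    exact ⟨by linarith, by linarith⟩
  obtain ⟨y, hy⟩ : ∃ y : ℝ, y = X ^ (1 / 8 : ℝ) := ⟨_, rfl⟩
  have hy1 : 1 ≤ y := by
    rw [hy]
    exact Real.one_le_rpow (by linarith) (by norm_num)
  have hdy : ∀ n ∈ Ioc A N, dv s n ≤ y := by
    intro n hn
    have hn' : (n : ℝ) ≤ 2 * X := by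
      have := (hrange n hn).2
      linarith
    have h15 := h6 n hn'
    have e : (1 / 4 / 2 : ℝ) = 1 / 8 := by norm_num
    rw [e, ← hy] at h15
    exact h15
  have hx0 : 0 ≤ B * X⁻¹ := by positivity
  have hx1 : B * X⁻¹ ≤ 1 := by
    rw [← div_eq_mul_inv, div_le_one hX0]
    exact hXB
  have hc := IC5.core ((s : ℝ) + 1) lam (by positivity) hlam A N h (T X) (T' X) (Wn s ψ L)
    (Two.Apsi ψ X (-(h : ℤ))) (Two.Apsi ψ X (h : ℤ)) (H X) (H' X) (B * X⁻¹) (B * y) hW0 ha0 hb0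
    ha hb (fun n hn => (h1 n (hrange n hn).1 (hrange n hn).2).1)
    (fun n hn => (h2 n (hrange n hn).1 (hrange n hn).2).1)
    (fun n hn => (h3 n (hrange n hn).1 (hrange n hn).2).1.trans
      (mul_le_mul_of_nonneg_left (hdy n hn) hB0.le))
    (fun n hn => (h3 n (hrange n hn).1 (hrange n hn).2).2.trans
      (mul_le_mul_of_nonneg_left (hdy n hn) hB0.le)) (by positivity) hx0 hx1
    (fun n hn => (h1 n (hrange n hn).1 (hrange n hn).2).2)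
    (fun n hn => (h2 n (hrange n hn).1 (hrange n hn).2).2)
  refine hc.trans ?_
  obtain ⟨P, hP⟩ : ∃ P : ℝ, P = Csing s h * ∫ y in O1 s, ψ y := ⟨_, rfl⟩
  obtain ⟨Z, hZ⟩ : ∃ Z : ℝ, Z = X * L ^ (2 * s) := ⟨_, rfl⟩
  rw [← hP, ← hZ] at hm1 hm2 hm3 hm4 ⊢
  have hXZ : X ≤ Z := by
    rw [hZ]
    have : 1 ≤ L ^ (2 * s) := one_le_pow₀ hL1
    nlinarith
  have herr : (N : ℝ) * (2 * (2 * (B * X⁻¹ * (B * y)) + B * X⁻¹)) ≤ δ / 2 * Z := by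
    have q1 : (N : ℝ) * (2 * (2 * (B * X⁻¹ * (B * y)) + B * X⁻¹)) ≤
        X * (2 * (2 * (B * X⁻¹ * (B * y)) + B * X⁻¹)) :=
      mul_le_mul_of_nonneg_right hNX (by positivity)
    have q2 : X * (2 * (2 * (B * X⁻¹ * (B * y)) + B * X⁻¹)) = 4 * B ^ 2 * y + 2 * B := by
      field_simp
      ring
    have q3 : 2 * B ≤ 2 * B ^ 2 * y := by
      have : B * 1 ≤ B * (B * y) := mul_le_mul_of_nonneg_left (by nlinarith) hB0.le
      nlinarith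
    have q4 : 6 * B ^ 2 * y ≤ δ / 2 * X := by rw [hy]; exact h10
    have q5 : δ / 2 * X ≤ δ / 2 * Z := mul_le_mul_of_nonneg_left hXZ (by positivity)
    linarith
  have f1 : (∑ n ∈ Ioc A N, Two.Apsi ψ X (-(h : ℤ)) n * H X n +
      ∑ n ∈ Ioc A N, Two.Apsi ψ X (h : ℤ) n * H X n) / lam ≤ 2 * ((P * I + δ') * Z) / lam :=
    div_le_div_of_nonneg_right (by linarith) hlam.le
  have f2 : lam * (∑ n ∈ Ioc A N, Two.Apsi ψ X (-(h : ℤ)) n * H' X n +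
      ∑ n ∈ Ioc A N, Two.Apsi ψ X (h : ℤ) n * H' X n) ≤ lam * (2 * ((P * I' + δ') * Z)) :=
    mul_le_mul_of_nonneg_left (by linarith) hlam.le
  have f3 := mul_le_mul_of_nonneg_left (add_le_add f1 f2)
    (show 0 ≤ ((s : ℝ) + 1) / 2 by positivity)
  have f4 : ((s : ℝ) + 1) / 2 * (2 * ((P * I + δ') * Z) / lam + lam * (2 * ((P * I' + δ') * Z))) =
      ((s + 1) * P * (I / lam + lam * I')) * Z +
        ((s : ℝ) + 1) * (1 / lam + lam) * δ' * Z := by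
    field_simp
    ring
  rw [f4, hδ'1] at f3
  calc _ ≤ ((s + 1) * P * (I / lam + lam * I')) * Z + δ / 2 * Z + δ / 2 * Z :=
        add_le_add f3 herr
    _ = ((s + 1) * P * (I / lam + lam * I') + δ) * Z := by ring

end Pool.Agent.Work.MP_122e00_nt.Core
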