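import Pool.Agent.Work.MP_122e00_nt.Gen.Stmts2

set_option autoImplicit false

/-!
# Exact reduction of the shifted divisor sum to the core: definitions and statements

`r = s + 1`.  The core `mc s X n` counts the factorisations of `n` in `s + 1` factors which are all
less than `X ^ (1 / 2)`.  The final statement (C9):

`∑ n ≤ X, mc n * mc (n + h) = DS - (Csing / s!²) (1 - (1 - (s + 1) / 2 ^ s)²) X (log X) ^ (2 s)
  + o(X (log X) ^ (2 s))`.

Structure: `d = mc + W + e` where `W = Wn s (ps s θ)` is the divisor sum of level `1 / 2 - θ` and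
`0 ≤ e ≤ Tg (tw s θ)` counts factorisations with a factor of logarithmic size in
`[1 / 2 - 2 θ, 1 / 2 + 2 θ]` (C1).  The thin part is small on average, against `d` at the shifted
argument (C2-C6).  The part `d - W` is evaluated by the mean value theorems N1, N2 (C7).
-/

namespace Pool.Agent.Work.MP_122e00_nt.Core

open Finset Filter Topology MeasureTheory

open scoped ArithmeticFunction.vonMangoldt ArithmeticFunction.zeta

open Two Gen

open Classical in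
/-- The number of factorisations `n = v₀ ⋯ v_s` with all `v_i ^ 2 < X`. -/
noncomputable def mc (s : ℕ) (X : ℝ) (n : ℕ) : ℝ :=
  (((Nat.finMulAntidiag (s + 1) n).filter fun v => ∀ i, ((v i : ℕ) : ℝ) ^ 2 < X).card : ℝ)

/-- A continuous majorant of the indicator of `|t - 1 / 2| ≤ θ`, with values in `[0, 2]`. -/
noncomputable def tent (θ t : ℝ) : ℝ := max 0 (2 - |t - 1 / 2| / θ)

/-- The weight of the factorisations with a factor near `X ^ (1 / 2)`. -/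
noncomputable def tw (s : ℕ) (θ : ℝ) (v : Fin (s + 1) → ℝ) : ℝ := ∑ i, tent θ (v i)

/-- The weighted number of factorisations, scale `L = log X`; `Wn s ψ L n = Tg s (gs ψ) L n` by
definition. -/
noncomputable def Tg (s : ℕ) (g : (Fin (s + 1) → ℝ) → ℝ) (L : ℝ) (n : ℕ) : ℝ :=
  TS L s 0 n (fun _ v => g v)

open Classical in
/-- The structure function of the chain scheme with a weight `g` (`FB s c` is the case `g = 1`). -/
noncomputable def FG (s : ℕ) (c : ℝ) (g : (Fin (s + 1) → ℝ) → ℝ) :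
    (k : ℕ) → (Fin k → ℝ) → (Fin (s + 1) → ℝ) → ℝ
  | 0 => fun _ _ => 0
  | k + 1 => fun x v => if stp c x then (Pl g x v) ^ 2 else 0

/-- The chain scheme with a weight `g`. -/
noncomputable def HG (s : ℕ) (c c₁ : ℝ) (g : (Fin (s + 1) → ℝ) → ℝ) (X : ℝ) (n : ℕ) : ℝ :=
  ∑ k ∈ Finset.range (⌊c₁ * Real.log X⌋₊ + 1), TS (Real.log X) s k n (FG s c g k)

/-- `(T - l) ^ 2 ≤ H * W` with a negligible `l`. -/
def DomB (s : ℕ) (B : ℝ) (ψ : (Fin s → ℝ) → ℝ) (T H : ℝ → ℕ → ℝ) : Prop :=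
  ∀ᶠ X : ℝ in atTop, ∀ n : ℕ, X / Real.log X ≤ (n : ℝ) → (n : ℝ) ≤ X →
    0 ≤ H X n ∧ ∃ l : ℝ, |l| ≤ B * X⁻¹ ∧
      (T X n - l) ^ 2 ≤ H X n * Wn s ψ (Real.log X) n

/-- C1: the decomposition `d = mc + W + e`, `0 ≤ e ≤ Tg (tw s θ)`.

PROOF.  All four quantities are sums over `v ∈ Nat.finMulAntidiag (s + 1) n` (for `dv` use
`claimB3`, second part: `TS L s 0 n (fun _ _ => 1) = dv s n`, hypothesis; `TS L s 0 n F` is by
definition the sum over `Nat.finMulAntidiag`; `card (filter)` is a sum of `if ... then 1 else 0`), so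
the two inequalities are proved term by term.  Put `L = log X`, `t i = log (v i) / L ≥ 0`,
`τ = ∑ i, t i = log n / L`; for `X` large `1 - θ / 2 ≤ τ ≤ 1` (as `log log X ≤ (θ / 2) log X`,
compare `prfB6` in Gen/ItemB6).  `gs (ps s θ) t = ∑ i, [∑_{j ≠ i} t j ≤ 1 / 2 - θ]` (the
nonnegativity condition holds; `Fin.sum_univ_succAbove`: `∑_{j} t (i.succAbove j) = τ - t i`), and
`(v i) ^ 2 < X` iff `t i < 1 / 2`.  Case 1: some `i` has `τ - t i ≤ 1 / 2 - θ`.  Then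
`t i ≥ 1 / 2 + θ / 2 > 1 / 2`, and for `i' ≠ i`: `τ - t i' ≥ t i > 1 / 2 - θ`, so exactly one term of
`gs` is `1`, the others `0`, and `v` is not in the core: the term of `e` is `1 - 0 - 1 = 0`, and
`tw ≥ 0`.  Case 2: no such `i`: `gs = 0`; the term of `e` is `1 - [core] ≥ 0`; if it is `1`, some `i`
has `t i ≥ 1 / 2`, and `t i < τ - 1 / 2 + θ ≤ 1 / 2 + θ`, so `tent θ (t i) ≥ 1` and `tw ≥ 1`. -/
def claimC1 : Prop := ∀ (s : ℕ) (θ : ℝ), 1 ≤ s → 0 < θ → θ < 1 / 4 →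
    ∀ᶠ X : ℝ in atTop, ∀ n : ℕ, X / Real.log X ≤ (n : ℝ) → (n : ℝ) ≤ X →
      0 ≤ dv s n - mc s X n - Wn s (ps s θ) (Real.log X) n ∧
      dv s n - mc s X n - Wn s (ps s θ) (Real.log X) n ≤ Tg s (tw s θ) (Real.log X) n

/-- C2: domination by the chain scheme.

PROOF.  Copy of `prfB6` (file Gen/ItemB6.lean: `IB6.core` and `prfB6`) with the weight `g` in place of
the constant `1`: `TS L s 0 n (fun _ v => g v) = ∑ k ∈ range K, TS L s (k + 1) n (Pc s c g k) + l` with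
`l = TS L s K n (fun x v => if ∑ j, x j < c then Pl g x v else 0)` (claimB2), and
`0 ≤ l ≤ B * ((s + 1) ^ K * TS L s K n (FT K c)) ≤ B * X⁻¹` since `0 ≤ Pl g x v ≤ B (s + 1) ^ K`
(claimB3 monotonicity, `prfT1` for the constants, claimG2 with `C₀ = s + 1`, `M₀ = c`, `c₁`).
Cauchy-Schwarz (claimB5) with `N k = Pc s c g k`, `F k = FG s c g (k + 1)`,
`G k = Pc s c (gs (ps s θ)) k`: if `stp c x`, then `N ^ 2 = (Pl g x v) ^ 2 ≤ (Pl g x v) ^ 2 * G` because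
`G = Pl (gs (ps s θ)) x v ≥ 1` (claimB4). -/
def claimC2 : Prop := ∀ (s : ℕ) (θ c c₁ B : ℝ) (g : (Fin (s + 1) → ℝ) → ℝ), 1 ≤ s → 0 < θ →
    θ ≤ 1 / 10 → c = ((s : ℝ) - 1) / (2 * s) + 2 * θ → 0 < c₁ → 1 ≤ B →
    (∀ v, 0 ≤ g v ∧ g v ≤ B) →
    DomB s B (ps s θ) (fun X n => Tg s g (Real.log X) n) (HG s c c₁ g)

/-- C3: the mean value of the chain scheme.

PROOF.  claimM3 (hypothesis) with `FF k = FG s c g k`, `C₀ = B ^ 2 * (s + 1) ^ 2 ≥ 1`, `M₀ = c`.  Bounds: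
`0 ≤ Pl g x v ≤ B (s + 1) ^ k` (a sum of `(s + 1) ^ k` values of `g`), so
`FG s c g (k + 1) x v ≤ (B (s + 1) ^ (k + 1)) ^ 2 ≤ C₀ ^ (k + 1)` (`B ≥ 1`), and it vanishes unless
`stp c x`, whose second part is the condition of `FL k c x v`.  Continuity: for almost every `y` the
condition `stp c (x p)` is constant for `p` near `(y, 1 - ∑ y)` (see the proof of `prfB7` in
Bd/B44.lean: `IB7.aeC`, `IB7.aeD`, `IB7.ev_lt`; copy it), and
`p ↦ Pl g (fun i => p.1 (inl i)) (Fin.snoc (fun i => p.1 (inr i)) p.2)` is continuous, a finite sum of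
compositions of `g` with continuous functions. -/
def claimC3 : Prop := ∀ (s h : ℕ) (θ c B I : ℝ) (ψ : (Fin s → ℝ) → ℝ)
    (g : (Fin (s + 1) → ℝ) → ℝ), 1 ≤ s → h ≠ 0 → 0 < θ → θ < 1 / 2 → Wt s θ ψ → 0 < c → c < 1 →
    1 ≤ B → (∀ v, 0 ≤ g v ∧ g v ≤ B) → Continuous g →
    (∀ K, ∑ k ∈ Finset.range (K + 1),
      ∫ y in Sim k s, ext (FG s c g k) (y, 1 - ∑ i, y i) * den y ≤ I) →
    ∃ c₀ : ℝ, 0 < c₀ ∧ ∀ c₁ : ℝ, 0 < c₁ → c₁ ≤ c₀ → Mean s h ψ (HG s c c₁ g) I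

/-- C4: the chain integrals of the thin weight tend to `0`.

PROOF.  `tent θ t` is nondecreasing in `θ > 0`, with values in `[0, 2]`, so
`0 ≤ tw s θ ≤ tw s θ₁ ≤ B := 2 (s + 1)` for `θ ≤ θ₁`, and `FG s c (tw s θ) k ≤ FG s c (tw s θ₁) k`
pointwise (`den ≥ 0` on `Sim`, everything is bounded by a constant times `den`, which is integrable:
claimT8, first part); so it is enough to find ONE `θ₁` with all partial sums `≤ ε`.  Tail:
`FG s c (tw s θ₁) k ≤ B ^ 2 * FB s c k` (`Pl g ≤ B (s + 1) ^ k`).  The partial sums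
`a K = ∑_{k ≤ K} ∫ FB` are monotone in `K` (terms `≥ 0`) and bounded (claimB9), so there is `K₀` with
`a K - a K₀ ≤ ε / (2 B ^ 2)` for all `K ≥ K₀`.  For each of the finitely many `k ≤ K₀`:
`∫ y in Sim k s, ext (FG s c (tw s θ) k) (y, 1 - ∑ y) * den y → 0` as `θ → 0+`, by dominated
convergence (bound `B ^ 2 (s + 1) ^ (2 k) den`), because for almost every `y` no placement has a part
equal to `1 / 2`, and `tent θ t = 0` as soon as `|t - 1 / 2| ≥ 2 θ`.  The exceptional `y` lie in finitely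
many affine hyperplanes (claimL6): for the part `q = castSucc q'` and the placement `c'`:
`y (inr q') + ∑_{c' j = q} y (inl j) = 1 / 2` (coefficient `1` at `inr q'`); for the last part:
`1 - ∑ i, y i + ∑_{c' j = last} y (inl j) = 1 / 2` (coefficient `- 1` at `inr 0`, as `s ≥ 1`). -/
def claimC4 : Prop := ∀ (s : ℕ) (c ε : ℝ), 1 ≤ s → 0 < c → c < 1 → 0 < ε →
    ∃ θ₁ : ℝ, 0 < θ₁ ∧ ∀ θ : ℝ, 0 < θ → θ ≤ θ₁ → ∀ K, ∑ k ∈ Finset.range (K + 1),
      ∫ y in Sim k s, ext (FG s c (tw s θ) k) (y, 1 - ∑ i, y i) * den y ≤ ε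

/-- C5: the bilinear inequality.

PROOF.  Compare `IN3.key`, `IN3.core`, `prfN3` in Bd/B48.lean.  Put `L = log X`, `A = ⌊X / L⌋₊`,
`N = ⌊X⌋₊`, `J = Ioc A (N - h)`; for `n ∈ J` both `n` and `n + h` are in `[X / L, X]`.  With
`|l|, |l'| ≤ B / X`, `|T|, |T'| ≤ B dv ≤ B y`, `y = X ^ (1 / 8)` (`Two.IU9.zeta_pow_le`):
`|T n| |T' (n + h)| ≤ |T n - l| |T' (n + h) - l'| + 3 (B / X) (B y + B)` and
`|T n - l| |T' (n + h) - l'| ≤ (H n W (n + h) / lam + lam H' (n + h) W n) / 2` (the square of the left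
side is `≤ (H n W (n + h)) (H' (n + h) W n)`, arithmetic-geometric mean).  Here
`W (n + h) = (s + 1) Apsi ψ X (-h) n` and `W n = (s + 1) Apsi ψ X h (n + h)` (claimG1).  Summing over
`n ∈ J` (and `m = n + h ∈ Ioc A N`; all terms are nonnegative) gives
`(s + 1) / 2 * (∑_{Ioc A N} Apsi ψ X (-h) H / lam + lam ∑_{Ioc A N} Apsi ψ X h H')` plus
`N * 3 (B / X) (B y + B) ≤ X ^ (1 / 2)`.  The same for `|T' n| |T (n + h)|`, with the roles of `-h`, `h`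
exchanged: `(s + 1) / 2 * (lam ∑ Apsi (-h) H' + ∑ Apsi h H / lam)`.  Apply `Mean` for `H` and `H'` with a
small `δ'` to the four sums. -/
def claimC5 : Prop := ∀ (s h : ℕ) (θ B I I' lam : ℝ) (ψ : (Fin s → ℝ) → ℝ)
    (T T' H H' : ℝ → ℕ → ℝ), 1 ≤ s → h ≠ 0 → 0 < θ → θ < 1 / 2 → Wt s θ ψ → 1 ≤ B → 0 < lam →
    DomB s B ψ T H → DomB s B ψ T' H' →
    (∀ᶠ X : ℝ in atTop, ∀ n : ℕ, X / Real.log X ≤ (n : ℝ) → (n : ℝ) ≤ X →
      |T X n| ≤ B * dv s n ∧ |T' X n| ≤ B * dv s n) →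
    Mean s h ψ H I → Mean s h ψ H' I' →
    ∀ δ : ℝ, 0 < δ → ∀ᶠ X : ℝ in atTop,
      ∑ n ∈ Finset.Ioc ⌊X / Real.log X⌋₊ (⌊X⌋₊ - h),
        (|T X n| * |T' X (n + h)| + |T' X n| * |T X (n + h)|) ≤
      ((s + 1) * (Csing s h * ∫ y in O1 s, ψ y) * (I / lam + lam * I') + δ) *
        (X * (Real.log X) ^ (2 * s))

/-- C6: the thin part, against `d` at the shifted argument.

PROOF.  Fix `θ₀ = 1 / 10`, `c = (s - 1) / (2 s) + 1 / 5 ∈ (0, 7 / 10)`, `ψ = ps s θ₀` (claimB10: `Wt`,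
`∫ ψ ≥ 0`), `B = 2 (s + 1)`.  `T = Tg (tw s θ)`, `T' = dv = Tg (fun _ => 1)` (claimB3, second part),
`|T| ≤ B dv` (monotonicity of `TS`, claimB3; for `TS` of a constant use `Two.prfT1`, i.e. claimT1).
`FG s c (fun _ => 1) k = FB s c k` (`Pl 1 = (s + 1) ^ k`), so by claimB9 the chain integrals of the
weight `1` have all partial sums `≤ I'` (some constant `≥ 0`).  Let `A = (s + 1) * Csing s h * ∫ ψ ≥ 0`
(`Csing_pos`).  Choose `lam > 0` with `A lam I' ≤ ε / 4`, then `ε' > 0` with `A ε' / lam ≤ ε / 4`, then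
`θ₁` by C4 for `ε'`.  For `θ ≤ θ₁`: C3 gives `c₀` for `g = tw s θ` (continuous) with `I = ε'` and `c₀'`
for `g = 1` with `I'`; take `c₁ = min c₀ c₀'`; C2 gives the two `DomB`; C5 with `δ = ε / 4`.  All terms
are nonnegative, so the absolute values can be removed. -/
def claimC6 : Prop := ∀ (s h : ℕ) (ε : ℝ), 1 ≤ s → h ≠ 0 → 0 < ε → ∃ θ₁ : ℝ, 0 < θ₁ ∧
    ∀ θ : ℝ, 0 < θ → θ ≤ θ₁ → ∀ᶠ X : ℝ in atTop,
      ∑ n ∈ Finset.Ioc ⌊X / Real.log X⌋₊ (⌊X⌋₊ - h),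
        (Tg s (tw s θ) (Real.log X) n * dv s (n + h) +
          dv s n * Tg s (tw s θ) (Real.log X) (n + h)) ≤
      ε * (X * (Real.log X) ^ (2 * s))

/-- C7: the part of level `1 / 2`.

PROOF.  Compare `IN3.core` (the lines up to `hid`) and `prfN3` in Bd/B48.lean, `prfAT2` in
Bd/B57.lean.  Put `L = log X`, `A = ⌊X / L⌋₊`, `N = ⌊X⌋₊`, `J = Ioc A (N - h)`, `W n = Wn s ψ L n`,
`a n = Apsi ψ X (-h) n`, `b' n = Apsi ψ X h n`; claimG1: `W (n + h) = (s + 1) a n`,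
`W n = (s + 1) b' (n + h)`.  For `n ∈ J` expand `(d n - W n) (d (n + h) - W (n + h)) =
d n d (n + h) - (s + 1) (a n d n + b' (n + h) d (n + h) - a n W n)`.  Replacing the sums over `J` by
sums over `Ioc A N` (for the second one: over `J + h`) changes each of the four sums by at most
`h M² X ^ (1 / 4)` (`IN3.diffsum`, all terms are between `0` and `M² X ^ (1 / 4)`).  The three sums over
`Ioc A N` are evaluated by claimN1 (twice) and claimN2, each both directions: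
`∑ a d = (Csing (∫ ψ) / s! + o(1)) X L ^ (2 s)`, the same for `∑ b' d`, and
`∑ a W = (Csing (∫ ψ) b + o(1)) X L ^ (2 s)`; `(s + 1) ∫ ψ = b`. -/
def claimC7 : Prop := ∀ (s h : ℕ) (θ b δ : ℝ) (ψ : (Fin s → ℝ) → ℝ), 1 ≤ s → h ≠ 0 → 0 < θ →
    θ < 1 / 2 → Wt s θ ψ → b = (s + 1) * ∫ y in O1 s, ψ y → 0 < δ → ∀ᶠ X : ℝ in atTop,
    |∑ n ∈ Finset.Ioc ⌊X / Real.log X⌋₊ (⌊X⌋₊ - h),
        (dv s n - Wn s ψ (Real.log X) n) * (dv s (n + h) - Wn s ψ (Real.log X) (n + h)) -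
      (DS s h ⌊X / Real.log X⌋₊ ⌊X⌋₊ - Csing s h * (2 * b / (s.factorial : ℝ) - b ^ 2) *
        (X * (Real.log X) ^ (2 * s)))| ≤ δ * (X * (Real.log X) ^ (2 * s))

/-- C8: the small integers and the last `h` integers.

PROOF.  `0 ≤ mc s X n ≤ dv s n` (claimB3, second part: `dv s n` is the cardinality of
`Nat.finMulAntidiag (s + 1) n`, for `n ≠ 0`).  `∑_{1 ≤ n ≤ X / log X} d n d (n + h) =
DS s h 0 ⌊X / log X⌋₊ ≤ C Y (log Y) ^ (2 s)` for `Y = X / log X` large, with any `C` admissible in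
claimFinal (hypothesis), and `Y (log Y) ^ (2 s) ≤ (X (log X) ^ (2 s)) / log X`.  The last `h` integers:
`d n d (n + h) ≤ X ^ (1 / 4)` (`Two.IU9.zeta_pow_le` in Bd, used in `prfN3`), so their sum is at most
`h X ^ (1 / 4)`.  (Compare `prfG4` in Bd/B45.lean.) -/
def claimC8 : Prop := ∀ (s h : ℕ) (δ : ℝ), 1 ≤ s → h ≠ 0 → 0 < δ → ∀ᶠ X : ℝ in atTop,
    (0 ≤ DS s h 0 ⌊X⌋₊ - DS s h ⌊X / Real.log X⌋₊ ⌊X⌋₊ ∧
      DS s h 0 ⌊X⌋₊ - DS s h ⌊X / Real.log X⌋₊ ⌊X⌋₊ ≤ δ * (X * (Real.log X) ^ (2 * s))) ∧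
    0 ≤ ∑ n ∈ Finset.Icc 1 ⌊X⌋₊, mc s X n * mc s X (n + h) -
      ∑ n ∈ Finset.Ioc ⌊X / Real.log X⌋₊ (⌊X⌋₊ - h), mc s X n * mc s X (n + h) ∧
    ∑ n ∈ Finset.Icc 1 ⌊X⌋₊, mc s X n * mc s X (n + h) -
      ∑ n ∈ Finset.Ioc ⌊X / Real.log X⌋₊ (⌊X⌋₊ - h), mc s X n * mc s X (n + h) ≤
      δ * (X * (Real.log X) ^ (2 * s))

/-- C9: the exact reduction to the core.

PROOF.  Let `Y = X (log X) ^ (2 s)`, `ρ = 1 - (s + 1) / 2 ^ s`.  Choose `θ` small: `θ ≤ θ₁` of C6 for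
`ε / 5`, `θ < 1 / 4`, and `Csing s h * |(2 b / s! - b ^ 2) - (1 - ρ ^ 2) / (s!) ^ 2| ≤ ε / 5` where
`b = (s + 1) (1 / 2 - θ) ^ s / s! = (s + 1) ∫ ps s θ` (claimB10), which tends to
`(s + 1) / (2 ^ s s!) = (1 - ρ) / s!` as `θ → 0+`.  Put `u n = dv s n - Wn s (ps s θ) (log X) n`,
`m n = mc s X n`, `e n = u n - m n`.  For `n ∈ Ioc A (N - h)` both `n` and `n + h` are in
`[X / log X, X]`, so C1 gives `0 ≤ e ≤ Tg (tw s θ)` at `n` and `n + h`; `0 ≤ m`, `u = m + e ≤ d` (as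
`Wn ≥ 0`: `claimT2` or directly), hence `0 ≤ u u' - m m' = e u' + m e' ≤ Tg n * d (n + h) +
d n * Tg (n + h)` and the sum over `n` is `≤ (ε / 5) Y` (C6).  C7 with `δ = ε / 5`, C8 with
`δ = ε / 5`. -/
def claimC9 : Prop := ∀ (s h : ℕ) (ε : ℝ), 1 ≤ s → h ≠ 0 → 0 < ε → ∀ᶠ X : ℝ in atTop,
    |∑ n ∈ Finset.Icc 1 ⌊X⌋₊, mc s X n * mc s X (n + h) -
      (DS s h 0 ⌊X⌋₊ - Csing s h / (s.factorial : ℝ) ^ 2 *
        (1 - (1 - ((s : ℝ) + 1) / 2 ^ s) ^ 2) * (X * (Real.log X) ^ (2 * s)))| ≤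
      ε * (X * (Real.log X) ^ (2 * s))

/-- C10: asymptotics with a polynomial in `log X` of degree `m`.

PROOF.  If `D ~ X P(log X)`, `natDegree P = m ≥ 1`, then `P ≠ 0` has leading coefficient `a ≠ 0` and
`P(y) / y ^ m → a` (`Polynomial.div_tendsto_leadingCoeff_div_of_degree_eq` with `Q = X ^ m`, or
`Polynomial.isEquivalent_atTop_lead`), composed with `Real.tendsto_log_atTop`; so
`D / (X (log X) ^ m) → a`.  Conversely take `P = C l * X ^ m`; `D ~ l X (log X) ^ m` because the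
quotient tends to `1` (`Asymptotics.isEquivalent_iff_tendsto_one` or
`isEquivalent_of_tendsto_one`; the denominators are nonzero for large `X`). -/
def claimC10 : Prop := ∀ (m : ℕ) (D : ℝ → ℝ), 1 ≤ m →
    ((∃ P : Polynomial ℝ, P.natDegree = m ∧
      Asymptotics.IsEquivalent atTop D (fun X : ℝ => X * P.eval (Real.log X))) ↔
    ∃ l : ℝ, l ≠ 0 ∧ Tendsto (fun X : ℝ => D X / (X * (Real.log X) ^ m)) atTop (𝓝 l))

end Pool.Agent.Work.MP_122e00_nt.Core
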